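import Pool.Agent.Lib.MP_ed43e6_ag.T.L3
import Pool.Agent.Lib.MP_ed43e6_ag.Q.Brd

/-! Classes of linked pairs for the links of all three levels. -/

namespace Pool.Agent.Lib.MP_ed43e6_ag.T

open N Q Q.Bd

/-- The boards of three staircases contained in the first one. -/
structure Lv3 (g : Fin 3 → ℕ → ℕ → ℕ) (z0 z1 z2 : ℕ) : Prop where
  isb : ∀ j, IsB (g j) (![z0, z1, z2] j)
  bdd : ∀ j, Bdd (g j)
  anti : ∀ j, Anti (g j)
  sub : ∀ j, Sub (![z0, z1, z2] j) z0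

variable {g : Fin 3 → ℕ → ℕ → ℕ} {z0 z1 z2 da db dt i : ℕ} {G : Pr}

/-- The class of the bit `i`. -/
noncomputable abbrev cl3 (z0 z1 z2 da db dt i : ℕ) : ℕ :=
  cls3 z0 z1 z2 (oo z0 da db dt) (oo z1 da db dt) (oo z2 da db dt) i

theorem cls3_seed {O0 O1 O2 : ℕ} (h : cls3 z0 z1 z2 O0 O1 O2 i ≠ 0) :
    (cls3 z0 z1 z2 O0 O1 O2 i).testBit i := sub_fill h i (bit_one.2 rfl)

theorem bit_lk3 {e p : ℕ} :
    (lk3 z0 z1 z2 (oo z0 da db dt) (oo z1 da db dt) (oo z2 da db dt) e).testBit p ↔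
      ∃ j, (lk (![z0, z1, z2] j) (oo (![z0, z1, z2] j) da db dt) e).testBit p := by
  rw [lk3, bit_or, bit_or]
  constructor
  · rintro ((h | h) | h)
    exacts [⟨0, h⟩, ⟨1, h⟩, ⟨2, h⟩]
  · rintro ⟨j, h⟩
    fin_cases j
    exacts [Or.inl (Or.inl h), Or.inl (Or.inr h), Or.inr h]

theorem cls3_links (L : Lv3 g z0 z1 z2) (h1 : db ≤ 22) (h2 : dt ≤ 46)
    (hs : Sub (cl3 z0 z1 z2 da db dt i) z0) (j : Fin 3) :
    Links (g j) (Neg (PB da db dt (cl3 z0 z1 z2 da db dt i))) := by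
  refine links_of_closed (L.isb j) (L.bdd j) (L.anti j) h1 h2 (fun k => ?_) (L.isb 0) (L.bdd 0) hs
  have := fill_closed (lk3 z0 z1 z2 (oo z0 da db dt) (oo z1 da db dt) (oo z2 da db dt) 1152)
    (lk3 z0 z1 z2 (oo z0 da db dt) (oo z1 da db dt) (oo z2 da db dt) 48)
    (lk3 z0 z1 z2 (oo z0 da db dt) (oo z1 da db dt) (oo z2 da db dt) 1) 40 (Nat.shiftLeft 1 i)
  fin_cases k
  exacts [this.1.mono fun _ a => bit_lk3.2 ⟨j, a⟩, this.2.1.mono fun _ a => bit_lk3.2 ⟨j, a⟩,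
    this.2.2.mono fun _ a => bit_lk3.2 ⟨j, a⟩]

/-- A link from a bit outside the staircase kills the pair. -/
theorem kill_step {g : ℕ → ℕ → ℕ} {z : ℕ} (hz : IsB g z) (hb : Bdd g) (ha : Anti g) (h1 : db ≤ 22)
    (h2 : dt ≤ 46) (hG : Links g G) (k : Fin 3)
    (l : (lk z (oo z da db dt) (ee k)).testBit (i + ee k)) (a : ¬ z.testBit i) :
    At da db dt G (i + ee k) := by
  obtain ⟨o, b⟩ := bit_lk.1 l
  obtain ⟨v, e, iv⟩ := hz.ex b
  have b1 := hb.lt iv
  have n : ∀ m, stp k m ≠ v := fun m hm => by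
    subst hm
    rw [pos_stp] at e
    exact a (Nat.add_right_cancel e ▸ hz.pos (ha k m iv))
  have : ∃ u, Dl da db dt (stp k u) v ∧ ¬ ins g u := by
    obtain ⟨x, y, w⟩ := v
    simp only at b1
    fin_cases k
    · obtain rfl : x = 0 := by
        cases x with
        | zero => rfl
        | succ x => exact (n (x, y, w) rfl).elim
      obtain rfl : i = ix 0 (y + 1) (w + 1) := by
        change i + 1152 = ix (0 + 1) (y + 1) (w + 1) at e
        unfold ix at e ⊢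
        omega
      rw [oo_bit hz hb h1 h2 (by omega) (by omega) (by omega)] at o
      refine ⟨(0 + 6 - da, y + 1 + 10 - db, w + 1 + 22 - dt), ?_, not_lt.2 o.2.2.2⟩
      change 0 + 6 - da + 1 + da = 0 + 7 ∧ y + 1 + 10 - db + db = y + 11 ∧
        w + 1 + 22 - dt + dt = w + 23
      omega
    · obtain rfl : y = 0 := by
        cases y with
        | zero => rfl
        | succ y => exact (n (x, y, w) rfl).elim
      obtain rfl : i = ix (x + 1) 0 (w + 1) := by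
        change i + 48 = ix (x + 1) (0 + 1) (w + 1) at e
        unfold ix at e ⊢
        omega
      rw [oo_bit hz hb h1 h2 (by omega) (by omega) (by omega)] at o
      refine ⟨(x + 1 + 6 - da, 0 + 10 - db, w + 1 + 22 - dt), ?_, not_lt.2 o.2.2.2⟩
      change x + 1 + 6 - da + da = x + 7 ∧ 0 + 10 - db + 1 + db = 0 + 11 ∧
        w + 1 + 22 - dt + dt = w + 23
      omega
    · obtain rfl : w = 0 := by
        cases w with
        | zero => rfl
        | succ w => exact (n (x, y, w) rfl).elim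
      obtain rfl : i = ix (x + 1) (y + 1) 0 := by
        change i + 1 = ix (x + 1) (y + 1) (0 + 1) at e
        unfold ix at e ⊢
        omega
      rw [oo_bit hz hb h1 h2 (by omega) (by omega) (by omega)] at o
      refine ⟨(x + 1 + 6 - da, y + 1 + 10 - db, 0 + 22 - dt), ?_, not_lt.2 o.2.2.2⟩
      change x + 1 + 6 - da + da = x + 7 ∧ y + 1 + 10 - db + db = y + 11 ∧
        0 + 22 - dt + 1 + dt = 0 + 23
      omega
  obtain ⟨u, d, hu⟩ := this
  rw [e]
  exact At.of d (by omega) (by omega) (((links_iff _ _).1 hG).2 k u v hu iv n)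

theorem lk3_step (L : Lv3 g z0 z1 z2) (h1 : db ≤ 22) (h2 : dt ≤ 46) (hG : ∀ j, Links (g j) G)
    (k : Fin 3) (p : ℕ)
    (l : (lk3 z0 z1 z2 (oo z0 da db dt) (oo z1 da db dt) (oo z2 da db dt) (ee k)).testBit
      (p + ee k)) :
    (z0.testBit p → At da db dt G p) ↔ (z0.testBit (p + ee k) → At da db dt G (p + ee k)) := by
  obtain ⟨j, l⟩ := bit_lk3.1 l
  by_cases a : z0.testBit p
  · have := link_step (L.isb j) (L.bdd j) (L.anti j) h1 h2 (hG j) k (L.isb 0) (L.bdd 0) p l a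
    exact ⟨fun H _ => this.1 (H a), fun H _ => this.2 (H (L.sub j _ (bit_lk.1 l).2))⟩
  · exact ⟨fun _ _ => kill_step (L.isb j) (L.bdd j) (L.anti j) h1 h2 (hG j) k l
      (mt (L.sub j p) a), fun _ b => (a b).elim⟩

theorem cls3_iff (L : Lv3 g z0 z1 z2) (h1 : db ≤ 22) (h2 : dt ≤ 46) (hG : ∀ j, Links (g j) G)
    {p : ℕ} (a : (cl3 z0 z1 z2 da db dt i).testBit p) :
    (z0.testBit p → At da db dt G p) ↔ (z0.testBit i → At da db dt G i) :=
  fill_ind (Q := fun p => (z0.testBit p → At da db dt G p) ↔ (z0.testBit i → At da db dt G i))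
    (fun _ b => b) (fun p l _ _ => iff_congr (lk3_step L h1 h2 hG 0 p l) Iff.rfl)
    (fun p l _ _ => iff_congr (lk3_step L h1 h2 hG 1 p l) Iff.rfl)
    (fun p l _ _ => iff_congr (lk3_step L h1 h2 hG 2 p l) Iff.rfl)
    (fun p b => by rw [bit_one.1 b]) p a

theorem cls3_conn (L : Lv3 g z0 z1 z2) (h1 : db ≤ 22) (h2 : dt ≤ 46)
    (hs : Sub (cl3 z0 z1 z2 da db dt i) z0) (hG : ∀ j, Links (g j) G) (h0 : At da db dt G i)
    (u v : T3) (h : ap (PB da db dt (cl3 z0 z1 z2 da db dt i)) u v) : ap G u v := by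
  obtain ⟨p1, p2, p3, p4⟩ := ap_PB.1 h
  exact (cls3_iff L h1 h2 hG p4).2 (fun _ => h0) (hs _ p4) u v rfl p1 p2 p3

end Pool.Agent.Lib.MP_ed43e6_ag.T
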