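import Pool.Agent.Lib.MP_ed43e6_ag.N.Krull
import Pool.Agent.Lib.MP_ed43e6_ag.N.Rat
import Pool.Agent.Lib.MP_ed43e6_ag.Q.Cl

/-! Degeneration of a point along a weight: the top weight parts of all relations hold at a new
point whose field has at least the same transcendence degree. -/

namespace Pool.Agent.Lib.MP_ed43e6_ag.T

open MvPolynomial N Q

universe u

/-- `Rl m x a`: the element `x` has weight at most `m`, with top part `a`. -/
structure Top (K : Type u) [Field K] {Ω F : Type u} [Field Ω] [Field F] [Algebra K Ω]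
    [Algebra K F] (Rl : ℕ → Ω → F → Prop) : Prop where
  up : ∀ m x a, Rl m x a → Rl (m + 1) x 0
  add : ∀ m x a x' a', Rl m x a → Rl m x' a' → Rl m (x + x') (a + a')
  mul : ∀ m x a m' x' a', Rl m x a → Rl m' x' a' → Rl (m + m') (x * x') (a * a')
  const : ∀ c : K, Rl 0 (algebraMap K Ω c) (algebraMap K F c)
  zero : ∀ m, Rl m 0 0
  uniq : ∀ m a, Rl m 0 a → a = 0

theorem exists_quot (K R : Type u) [Field K] [CommRing R] [IsDomain R] [Algebra K R]
    [Algebra.FiniteType K R] (t : R) (ht : ¬ IsUnit t) :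
    ∃ (F : Type u) (_ : Field F) (_ : Algebra K F) (φ : R →ₐ[K] F), φ t = 0 ∧
      Algebra.trdeg K R ≤ Algebra.trdeg K F + ((1 : ℕ) : Cardinal) ∧
      ∀ E : IntermediateField K F, (∀ r, φ r ∈ E) → ∀ x, x ∈ E := by
  have hne : Ideal.span (Set.range fun _ : Unit => t) ≠ ⊤ := by
    intro h
    rw [Set.range_const, Ideal.span_singleton_eq_top] at h
    exact ht h
  obtain ⟨⟨P, hP⟩⟩ := Ideal.nonempty_minimalPrimes hne
  have hprime : P.IsPrime := hP.1.1
  let F := FractionRing (R ⧸ P)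
  let φ : R →ₐ[K] F := (IsScalarTower.toAlgHom K (R ⧸ P) F).comp (Ideal.Quotient.mkₐ K P)
  have hker : RingHom.ker φ = P := by
    ext r
    rw [RingHom.mem_ker, ← Ideal.Quotient.eq_zero_iff_mem]
    exact (map_eq_zero_iff _ (IsFractionRing.injective (R ⧸ P) F))
  have hk := krullStmt K R F Unit Empty (fun _ x => x.elim) (fun _ => t)
    (funext fun x => x.elim) φ (by rw [hker]; exact hP)
  refine ⟨F, inferInstance, inferInstance, φ, ?_, by simpa using le_self_add.trans hk,
    fun E hE x => ?_⟩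
  · rw [← RingHom.mem_ker, hker]
    exact hP.1.2 (Ideal.subset_span ⟨(), rfl⟩)
  · obtain ⟨a, b, -, rfl⟩ := IsFractionRing.div_surjective (A := R ⧸ P) x
    obtain ⟨a, rfl⟩ := Ideal.Quotient.mk_surjective a
    obtain ⟨b, rfl⟩ := Ideal.Quotient.mk_surjective b
    exact div_mem (hE a) (hE b)

theorem trdeg_sub (K L : Type u) [Field K] [Field L] [Algebra K L] (R : Subalgebra K L)
    (h : Algebra.IsAlgebraic R L) : Algebra.trdeg K L = Algebra.trdeg K R := by
  have : FaithfulSMul K R := (faithfulSMul_iff_algebraMap_injective _ _).2 (algebraMap K R).injective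
  have : FaithfulSMul R L := (faithfulSMul_iff_algebraMap_injective _ _).2 Subtype.val_injective
  rw [← trdeg_add_eq K R (A := L), trdeg_eq_zero (A := L), add_zero]

theorem deg0 (K Ω : Type u) [Field K] [Field Ω] [Algebra K Ω] {ι : Type} (J : Finset ι)
    (y : ι → Ω) (e : ι → ℕ) (hgen : ∀ E : IntermediateField K Ω, (∀ i ∈ J, y i ∈ E) → ∀ x, x ∈ E) :
    ∃ (F : Type u) (_ : Field F) (_ : Algebra K F) (z : ι → F) (Rl : ℕ → Ω → F → Prop),
      Top K Rl ∧ (∀ i ∈ J, Rl (e i) (y i) (z i)) ∧ (∀ i ∈ J, e i = 0 → y i ≠ 0 → z i ≠ 0) ∧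
      ∀ S : Finset F, (∀ i ∈ J, z i ∈ cl K (S : Set F)) →
        Algebra.trdeg K Ω ≤ (S.card : Cardinal) := by
  classical
  let L := RF Ω 1
  let j : MvPolynomial (Fin 1) Ω →ₐ[K] L := IsScalarTower.toAlgHom K (MvPolynomial (Fin 1) Ω) L
  have hj : Function.Injective j := IsFractionRing.injective (MvPolynomial (Fin 1) Ω) L
  let c : Ω →ₐ[K] L := IsScalarTower.toAlgHom K Ω L
  have hc : ∀ x, j (C x) = c x := fun x =>
    (IsScalarTower.algebraMap_apply Ω (MvPolynomial (Fin 1) Ω) L x).symm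
  let t : L := j (X 0)
  have ht0 : t ≠ 0 := fun h => X_ne_zero (R := Ω) (0 : Fin 1) (hj (h.trans (map_zero j).symm))
  let g : ι → L := fun i => c (y i) * t ^ e i
  let w : ι → L := fun i => if e i = 0 then c (y i)⁻¹ else 0
  let G : Finset L := insert t (J.image g ∪ J.image w)
  let R : Subalgebra K L := Algebra.adjoin K (G : Set L)
  have hG : ∀ x ∈ G, x ∈ R := fun x hx => Algebra.subset_adjoin hx
  have htR : t ∈ R := hG _ (Finset.mem_insert_self _ _)
  have hgR : ∀ i ∈ J, g i ∈ R := fun i hi => hG _ (Finset.mem_insert_of_mem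
    (Finset.mem_union_left _ (Finset.mem_image_of_mem _ hi)))
  have hwR : ∀ i ∈ J, w i ∈ R := fun i hi => hG _ (Finset.mem_insert_of_mem
    (Finset.mem_union_right _ (Finset.mem_image_of_mem _ hi)))
  have hRj : R ≤ j.range := by
    refine Algebra.adjoin_le fun x hx => ?_
    rcases Finset.mem_insert.1 hx with rfl | hx
    · exact ⟨X 0, rfl⟩
    rcases Finset.mem_union.1 hx with hx | hx
    · obtain ⟨i, -, rfl⟩ := Finset.mem_image.1 hx
      exact ⟨C (y i) * X 0 ^ e i, by simp only [AlgHom.toRingHom_eq_coe, RingHom.coe_coe, map_mul, map_pow, hc]; rfl⟩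
    · obtain ⟨i, -, rfl⟩ := Finset.mem_image.1 hx
      by_cases h : e i = 0
      · exact ⟨C (y i)⁻¹, by simp only [AlgHom.toRingHom_eq_coe, RingHom.coe_coe, hc, w, if_pos h]⟩
      · exact ⟨0, by simp only [map_zero, w, if_neg h]⟩
  let tR : R := ⟨t, htR⟩
  have hne : ¬ IsUnit tR := by
    intro h
    obtain ⟨r, hr⟩ := h.exists_right_inv
    obtain ⟨p, hp⟩ := hRj r.2
    have h1 : j (X 0 * p) = j 1 := by
      rw [map_mul, map_one]
      have := congrArg Subtype.val hr
      simp only [AlgHom.toRingHom_eq_coe, RingHom.coe_coe] at hp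
      rw [hp]
      exact this
    have h2 := congrArg constantCoeff (hj h1)
    simp at h2
  have : Algebra.FiniteType K R := (Subalgebra.fg_iff_finiteType R).1 ⟨G, rfl⟩
  obtain ⟨F, _, _, φ, hφt, hk, hF⟩ := exists_quot K R tR hne
  let z : ι → F := fun i => if h : i ∈ J then φ ⟨g i, hgR i h⟩ else 0
  have hinv : ∀ i (hi : i ∈ J), e i = 0 → y i ≠ 0 → z i * φ ⟨w i, hwR i hi⟩ = 1 := by
    intro i hi h0 hy
    simp only [z, dif_pos hi]
    rw [← map_mul, ← map_one φ]
    congr 1
    apply Subtype.ext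
    show g i * w i = 1
    simp only [g, w, if_pos h0, h0, pow_zero, mul_one]
    rw [← map_mul, mul_inv_cancel₀ hy, map_one]
  refine ⟨F, inferInstance, inferInstance, z,
    fun m x a => ∃ r : R, (r : L) = c x * t ^ m ∧ φ r = a, ⟨?_, ?_, ?_, ?_, ?_, ?_⟩, ?_, ?_, ?_⟩
  · rintro m x a ⟨r, hr, -⟩
    refine ⟨r * tR, ?_, by rw [map_mul, hφt, mul_zero]⟩
    show (r : L) * t = _
    rw [hr, pow_succ, mul_assoc]
  · rintro m x a x' a' ⟨r, hr, rfl⟩ ⟨r', hr', rfl⟩
    refine ⟨r + r', ?_, map_add _ _ _⟩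
    show (r : L) + r' = _
    rw [hr, hr', map_add, add_mul]
  · rintro m x a m' x' a' ⟨r, hr, rfl⟩ ⟨r', hr', rfl⟩
    refine ⟨r * r', ?_, map_mul _ _ _⟩
    show (r : L) * r' = _
    rw [hr, hr', map_mul, pow_add]
    ring
  · intro k
    refine ⟨algebraMap K R k, ?_, φ.commutes k⟩
    rw [pow_zero, mul_one, c.commutes]
    rfl
  · intro m
    exact ⟨0, by simp, map_zero _⟩
  · rintro m a ⟨r, hr, rfl⟩
    have : r = 0 := Subtype.ext (by simpa using hr)
    rw [this, map_zero]
  · intro i hi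
    exact ⟨⟨g i, hgR i hi⟩, rfl, by simp only [z, dif_pos hi]⟩
  · intro i hi h0 hy hz
    have := hinv i hi h0 hy
    rw [hz, zero_mul] at this
    exact zero_ne_one this
  · intro S hS
    have h1 : ∀ r : R, φ r ∈ cl K (S : Set F) := by
      rintro ⟨r, hr⟩
      induction hr using Algebra.adjoin_induction with
      | mem x hx =>
        rcases Finset.mem_insert.1 hx with rfl | hx
        · exact (hφt ▸ zero_mem _ : φ tR ∈ cl K (S : Set F))
        rcases Finset.mem_union.1 hx with hx | hx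
        · obtain ⟨i, hi, rfl⟩ := Finset.mem_image.1 hx
          have := hS i hi
          simpa only [z, dif_pos hi] using this
        · obtain ⟨i, hi, rfl⟩ := Finset.mem_image.1 hx
          by_cases h : e i = 0 ∧ y i ≠ 0
          · rw [eq_inv_of_mul_eq_one_right (hinv i hi h.1 h.2)]
            exact inv_mem (hS i hi)
          · have h0 : (⟨w i, hwR i hi⟩ : R) = 0 := by
              apply Subtype.ext
              show w i = 0
              by_cases h' : e i = 0
              · have : y i = 0 := not_not.1 fun h'' => h ⟨h', h''⟩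
                simp [w, this]
              · simp [w, h']
            exact (by rw [h0, map_zero]; exact zero_mem _ : φ ⟨w i, hwR i hi⟩ ∈ cl K (S : Set F))
      | algebraMap k => exact (φ.commutes k ▸ IntermediateField.algebraMap_mem _ k :
          φ (algebraMap K R k) ∈ cl K (S : Set F))
      | add a b ha hb iha ihb => exact (by rw [map_add]; exact add_mem iha ihb :
          φ (⟨a, ha⟩ + ⟨b, hb⟩) ∈ cl K (S : Set F))
      | mul a b ha hb iha ihb => exact (by rw [map_mul]; exact mul_mem iha ihb :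
          φ (⟨a, ha⟩ * ⟨b, hb⟩) ∈ cl K (S : Set F))
    have h2 : Algebra.trdeg K F ≤ (S.card : Cardinal) := trdeg_le S (hF _ h1)
    have h3 : ∀ x : L, x ∈ IntermediateField.adjoin K (G : Set L) := by
      set E := IntermediateField.adjoin K (G : Set L)
      have hE : ∀ x ∈ G, x ∈ E := fun x hx => IntermediateField.subset_adjoin _ _ hx
      have htE : t ∈ E := hE _ (Finset.mem_insert_self _ _)
      refine Rat.tr2 K Ω L 1 (AlgHom.id K L) E (fun x => hgen (E.comap c) (fun i hi => ?_) x)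
        fun i => by rw [Subsingleton.elim i 0]; exact htE
      have h4 : c (y i) = g i / t ^ e i := by
        simp only [g]
        rw [mul_div_assoc, div_self (pow_ne_zero _ ht0), mul_one]
      show c (y i) ∈ E
      rw [h4]
      exact div_mem (hE _ (Finset.mem_insert_of_mem
        (Finset.mem_union_left _ (Finset.mem_image_of_mem _ hi)))) (pow_mem htE _)
    have h4 : Algebra.IsAlgebraic (IntermediateField.adjoin K (G : Set L)) L :=
      ⟨fun x => isAlgebraic_algebraMap (⟨x, h3 x⟩ : IntermediateField.adjoin K (G : Set L))⟩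
    have h5 : Algebra.IsAlgebraic R L := IntermediateField.isAlgebraic_adjoin_iff_top.mp h4
    have h6 : Algebra.trdeg K L = Algebra.trdeg K R := trdeg_sub K L R h5
    have h7 := Rat.tr1 K Ω 1
    rw [← Cardinal.add_nat_le_add_nat_iff 1]
    calc Algebra.trdeg K Ω + ((1 : ℕ) : Cardinal) ≤ Algebra.trdeg K R := h6 ▸ h7
      _ ≤ Algebra.trdeg K F + ((1 : ℕ) : Cardinal) := hk
      _ ≤ _ := by gcongr

/-- A field of small transcendence degree is algebraic over few elements. -/
theorem exists_gen (K Ω : Type u) [Field K] [Field Ω] [Algebra K Ω] (E : IntermediateField K Ω)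
    (k : ℕ) (h : Algebra.trdeg K E ≤ (k : Cardinal)) :
    ∃ S : Finset Ω, S.card ≤ k ∧ ∀ x ∈ E, x ∈ cl K (S : Set Ω) := by
  classical
  obtain ⟨s, hs⟩ := exists_isTranscendenceBasis K E
  have h1 : Cardinal.mk s ≤ (k : Cardinal) := hs.cardinalMk_eq_trdeg ▸ h
  have hfin : s.Finite := Cardinal.lt_aleph0_iff_set_finite.1 (h1.trans_lt (Cardinal.natCast_lt_aleph0))
  refine ⟨hfin.toFinset.image E.val, Finset.card_image_le.trans ?_, fun x hx => mem_cl.2 ?_⟩
  · have := hfin.fintype
    rw [Cardinal.mk_fintype, Nat.cast_le] at h1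
    rw [hfin.card_toFinset]
    exact h1
  · have h2 := hs.isAlgebraic_field.isAlgebraic ⟨x, hx⟩
    rw [Subtype.range_coe] at h2
    have h3 : (IntermediateField.adjoin K s).map E.val =
        IntermediateField.adjoin K ((hfin.toFinset.image E.val : Finset Ω) : Set Ω) := by
      rw [IntermediateField.adjoin_map]
      simp
    rw [← h3]
    let f := (IntermediateField.adjoin K s).equivMap E.val
    exact h2.ringHom_of_comp_eq f.toRingEquiv.toRingHom E.val.toRingHom f.injective (by ext; rfl)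

theorem deg (K Ω : Type u) [Field K] [Field Ω] [Algebra K Ω] {ι : Type} (J : Finset ι)
    (y : ι → Ω) (e : ι → ℕ) :
    ∃ (F : Type u) (_ : Field F) (_ : Algebra K F) (z : ι → F) (Rl : ℕ → Ω → F → Prop),
      Top K Rl ∧ (∀ i ∈ J, Rl (e i) (y i) (z i)) ∧ (∀ i ∈ J, e i = 0 → y i ≠ 0 → z i ≠ 0) ∧
      ∀ S : Finset F, (∀ i ∈ J, z i ∈ cl K (S : Set F)) →
        ∃ S' : Finset Ω, S'.card ≤ S.card ∧ ∀ i ∈ J, y i ∈ cl K (S' : Set Ω) := by
  classical
  let E := IntermediateField.adjoin K (y '' J)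
  have hE : ∀ i ∈ J, y i ∈ E := fun i hi => IntermediateField.subset_adjoin _ _ ⟨i, hi, rfl⟩
  let y' : ι → E := fun i => if h : i ∈ J then ⟨y i, hE i h⟩ else 0
  have hy' : ∀ i ∈ J, (y' i : Ω) = y i := fun i hi => by simp only [y', dif_pos hi]
  obtain ⟨F, _, _, z, Rl, hT, h1, h2, h3⟩ := deg0 K E J y' e fun E' hE' x => by
    have : E ≤ E'.map E.val := IntermediateField.adjoin_le_iff.2 (by
      rintro _ ⟨i, hi, rfl⟩
      exact ⟨y' i, hE' i hi, hy' i hi⟩)
    obtain ⟨x', hx', e'⟩ := this x.2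
    exact (Subtype.ext e' : x' = x) ▸ hx'
  refine ⟨F, inferInstance, inferInstance, z, fun m x a => ∃ x' : E, (x' : Ω) = x ∧ Rl m x' a,
    ⟨?_, ?_, ?_, ?_, ?_, ?_⟩, fun i hi => ⟨y' i, hy' i hi, h1 i hi⟩,
    fun i hi h0 hy => h2 i hi h0 fun h => hy (by rw [← hy' i hi, h]; rfl), fun S hS => ?_⟩
  · rintro m _ a ⟨x, rfl, h⟩
    exact ⟨x, rfl, hT.up _ _ _ h⟩
  · rintro m _ a _ a' ⟨x, rfl, h⟩ ⟨x', rfl, h'⟩
    exact ⟨x + x', rfl, hT.add _ _ _ _ _ h h'⟩
  · rintro m _ a m' _ a' ⟨x, rfl, h⟩ ⟨x', rfl, h'⟩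
    exact ⟨x * x', rfl, hT.mul _ _ _ _ _ _ h h'⟩
  · exact fun c => ⟨algebraMap K E c, rfl, hT.const c⟩
  · exact fun m => ⟨0, rfl, hT.zero m⟩
  · rintro m a ⟨x, hx, h⟩
    exact hT.uniq m a ((Subtype.ext hx : x = 0) ▸ h)
  · obtain ⟨S', c1, c2⟩ := exists_gen K Ω E S.card (h3 S hS)
    exact ⟨S', c1, fun i hi => c2 _ (hE i hi)⟩

end Pool.Agent.Lib.MP_ed43e6_ag.T
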