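import Pool.Agent.Lib.MP_ed43e6_ag.Q.Second
import Pool.Agent.Lib.MP_ed43e6_ag.Q.Gen
import Pool.Agent.Lib.MP_ed43e6_ag.T.Deg

/-! The gain coming from a bound for the solutions of the exact system of quadrics. -/

namespace Pool.Agent.Lib.MP_ed43e6_ag.T

open MvPolynomial Finset N Q

universe u

/-- `A` indexes distinct classes of linked pairs that are not killed. -/
structure Cl0 (h : Fin 3 → ℕ → ℕ → ℕ) (A : Finset ℕ) (X : ℕ → Pr) (γ : ℕ → ℕ) : Prop where
  links : ∀ a ∈ A, ∀ j, Links (h j) (Neg (X a))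
  gap : ∀ a ∈ A, 0 < γ a ∧ ∀ u v, ap (X a) u v → ky u + γ a = ky v
  seed : ∀ a ∈ A, ∃ u v, ap (X a) u v ∧ (∃ j, ¬ ins (h j) u ∧ ins (h j) v) ∧
    (∀ b ∈ A, b ≠ a → ¬ ap (X b) u v) ∧
    ∀ G : Pr, (∀ j, Links (h j) G) → ap G u v → ∀ u' v', ap (X a) u' v' → ap G u' v'

/-- `z` solves all quadrics given by dual classes. -/
def Sol (h : Fin 3 → ℕ → ℕ → ℕ) (A : Finset ℕ) (X : ℕ → Pr) {F : Type u} [Field F]
    (z : ℕ → F) : Prop :=
  (∀ a ∉ A, z a = 0) ∧ ∀ (j : Fin 3) (N : Pr) (g : ℕ), Links (h j) (Neg N) →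
    (∀ u v, ap N u v → ky v + g + key 1 1 1 = ky u) →
    ∑ a ∈ A, ∑ b ∈ A, (coef (h j) N (X a) (X b) : F) * (z a * z b) = 0

/-- Every solution of the quadrics is algebraic over `A.card - k` elements. -/
def TGain (h : Fin 3 → ℕ → ℕ → ℕ) (D k : ℕ) : Prop :=
  ∃ (A : Finset ℕ) (X : ℕ → Pr) (γ : ℕ → ℕ), Cl0 h A X γ ∧
    ∀ (K F : Type u) [Field K] [Field F] [Algebra K F], (∀ i : ℕ, 0 < i → i ≤ D → (i : K) ≠ 0) →
      ∀ z : ℕ → F, Sol h A X z → ∃ S : Finset F, S.card + k ≤ A.card ∧ ∀ a, z a ∈ cl K (S : Set F)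

section

variable {K Ω F : Type u} [Field K] [Field Ω] [Field F] [Algebra K Ω] [Algebra K F]
  {Rl : ℕ → Ω → F → Prop}

theorem Top.lt (T : Top K Rl) {m n : ℕ} {x : Ω} {a : F} (h : Rl m x a) (l : m < n) : Rl n x 0 := by
  induction l with
  | refl => exact T.up _ _ _ h
  | step _ ih => exact T.up _ _ _ ih

theorem Top.smul (T : Top K Rl) (c : K) {m : ℕ} {x : Ω} {a : F} (h : Rl m x a) :
    Rl m (algebraMap K Ω c * x) (algebraMap K F c * a) := by
  simpa using T.mul _ _ _ _ _ _ (T.const c) h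

theorem Top.int (T : Top K Rl) (c : ℤ) {m : ℕ} {x : Ω} {a : F} (h : Rl m x a) :
    Rl m (c * x) (c * a) := by
  simpa using T.smul (c : K) h

theorem Top.eq (T : Top K Rl) {m : ℕ} {x : Ω} {a b : F} (h : Rl m x a) (h' : Rl m x b) :
    a = b := by
  have := T.add _ _ _ _ _ h (T.int (-1) h')
  simp only [Int.cast_neg, Int.cast_one, neg_mul, one_mul, add_neg_cancel] at this
  exact add_neg_eq_zero.1 (T.uniq _ _ this)

theorem Top.sum (T : Top K Rl) {ι : Type} (s : Finset ι) {m : ℕ} {f : ι → Ω} {g : ι → F}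
    (h : ∀ i ∈ s, Rl m (f i) (g i)) : Rl m (∑ i ∈ s, f i) (∑ i ∈ s, g i) := by
  classical
  induction s using Finset.induction_on with
  | empty => simpa using T.zero m
  | insert a s ha ih =>
    rw [sum_insert ha, sum_insert ha]
    exact T.add _ _ _ _ _ (h a (mem_insert_self _ _)) (ih fun i hi => h i (mem_insert_of_mem hi))

theorem Top.fil (T : Top K Rl) {ι : Type} {J : Finset ι} {y : ι → Ω} {ω : ι → ℕ} {z : ι → F}
    (h : ∀ i ∈ J, Rl (ω i) (y i) (z i)) {m n : ℕ} {x : Ω} (hx : x ∈ Fil K y ω J m) (l : m < n) :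
    Rl n x 0 := by
  have key : ∀ l : Multiset ι, (∀ i ∈ l, i ∈ J) → Rl (l.map ω).sum (l.map y).prod (l.map z).prod := by
    intro l
    induction l using Multiset.induction_on with
    | empty => intro _; simpa using T.const 1
    | cons a s ih =>
      intro hs
      simp only [Multiset.map_cons, Multiset.sum_cons, Multiset.prod_cons]
      exact T.mul _ _ _ _ _ _ (h a (hs a (Multiset.mem_cons_self _ _)))
        (ih fun i hi => hs i (Multiset.mem_cons_of_mem hi))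
  induction hx using Submodule.span_induction with
  | mem x hx => obtain ⟨s, a, b, rfl⟩ := hx; exact T.lt (key s a) (b.trans_lt l)
  | zero => exact T.zero n
  | add a b _ _ ha hb => simpa using T.add _ _ _ _ _ ha hb
  | smul c a _ ha => simpa [Algebra.smul_def] using T.smul c ha

theorem fil_mem {ι : Type} {J : Finset ι} {y : ι → Ω} {ω : ι → ℕ} {E : IntermediateField K Ω}
    (h : ∀ i ∈ J, y i ∈ E) {m : ℕ} {x : Ω} (hx : x ∈ Fil K y ω J m) : x ∈ E := by
  induction hx using Submodule.span_induction with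
  | mem x hx =>
    obtain ⟨s, a, -, rfl⟩ := hx
    refine multiset_prod_mem _ fun w hw => ?_
    obtain ⟨i, hi, rfl⟩ := Multiset.mem_map.1 hw
    exact h i (a i hi)
  | zero => exact zero_mem _
  | add a b _ _ ha hb => exact add_mem ha hb
  | smul c a _ ha => exact E.smul_mem ha

end

theorem secondP_tgain : SecondP.{u} TGain.{u} := by
  classical
  rintro K Ω _ _ _ D hD ch I lam nf h h01 h12 hN hh hb R hR k ⟨A, X, γ, V, hk⟩
  obtain ⟨hL, tot⟩ := levels cube h01 h12 hN (fun j u => hh j _ _ _) fun j u e => by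
    simp only [cube, mem_product, mem_range]
    exact hb j _ _ _ e
  choose! su sv s1 s2 s3 s4 using V.seed
  choose! sj s2 s2' using s2
  obtain ⟨z, hz⟩ : ∃ z : ℕ → Ω, ∀ a, z a = tab (nf (sj a)) (su a) (sv a) := ⟨_, fun _ => rfl⟩
  have C : Cls h (fun j => tab (nf j)) A X γ z :=
    ⟨V.links, V.gap, fun a ha b hb e u v x =>
      s4 a ha (Neg (X b)) (V.links b hb) (s3 a ha b hb e) u v x,
      fun a ha => ⟨_, _, _, s1 a ha, s2 a ha, s2' a ha, hz a, s4 a ha⟩⟩
  have : ∀ r : T3 × T3, ∃ j₀, ∀ j, ¬ ins (h j) r.1 → ins (h j) r.2 →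
      ¬ ins (h j₀) r.1 ∧ ins (h j₀) r.2 := fun r => by
    by_cases e : ∃ j, ¬ ins (h j) r.1 ∧ ins (h j) r.2
    · exact e.imp fun _ a _ _ _ => a
    · exact ⟨0, fun j a b => (e ⟨j, a, b⟩).elim⟩
  choose lev hlev using this
  obtain ⟨U, hU⟩ : ∃ U : Finset (T3 × T3), ∀ r, r ∈ U ↔ r ∈ R ∧ ∀ a ∈ A, ¬ ap (X a) r.1 r.2 :=
    ⟨R.filter _, fun _ => mem_filter⟩
  have cnt := C.count hR (U := U) (fun r e => ((hU r).1 e).1) fun r e => ((hU r).1 e).2
  let y : (T3 × T3) ⊕ ℕ → Ω := Sum.elim (fun r => tab (nf (lev r)) r.1 r.2) z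
  let ω : (T3 × T3) ⊕ ℕ → ℕ :=
    Sum.elim (fun r => Q.thr 1 (ky r.2 - ky r.1)) fun a => Q.thr 1 (γ a) + (2 * 1 - 1)
  let Φ := Fil K y ω (U.disjSum A)
  have mono : ∀ {m n x}, m ≤ n → x ∈ Φ m → x ∈ Φ n := fun a b => Fil.mono a b
  have hz2 : ∀ a ∈ A, z a ∈ Φ (Q.thr 1 (γ a) + (2 * 1 - 1)) := fun a ha =>
    Fil.gen (i := Sum.inr a) (inr_mem_disjSum.2 ha)
  have H := lin hL tot C (Φ := Φ) Fil.mul' mono one_pos hz2 hR fun r hr a j b c =>
    ⟨lev r, (hlev r j b c).1, (hlev r j b c).2,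
      Fil.gen (i := Sum.inl r) (inl_mem_disjSum.2 ((hU r).2 ⟨hr, a⟩))⟩
  obtain ⟨F, _, _, w, Rl, T, t1, -, t3⟩ := deg K Ω (U.disjSum A) y ω
  have chK : ∀ i : ℕ, 0 < i → i ≤ D → (i : K) ≠ 0 := fun i a b e =>
    ch i a b (by rw [← map_natCast (algebraMap K Ω), e, map_zero])
  obtain ⟨S', c1, c2⟩ := hk K F chK (fun a => if a ∈ A then w (Sum.inr a) else 0)
    ⟨fun a ha => if_neg ha, fun j N g l1 l2 => by
      by_cases hg : g < 2
      · refine sum_eq_zero fun a ha => sum_eq_zero fun b hb => ?_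
        have := (C.gap a ha).1
        have := (C.gap b hb).1
        rw [coef_zero l2 (C.gap a ha).2 (C.gap b hb).2 (by omega), Int.cast_zero, zero_mul]
      obtain ⟨g, rfl⟩ : ∃ g', g = 1 + (g' + 1) := ⟨g - 2, by omega⟩
      have r1 := row_mem (hL j) (C.quad hL (Φ := Φ) Fil.mul' mono hz2 H one_pos g.succ_pos j) l1 l2
      refine T.eq (T.sum A fun a ha => T.sum A fun b hb => ?_) (T.fil t1 r1 (Nat.lt_succ_self _))
      by_cases e : γ a + γ b = 1 + (g + 1)
      · have q1 := thr_add 1 (C.gap a ha).1 (C.gap b hb).1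
        have q2 := thr_add 1 one_pos g.succ_pos
        rw [e] at q1
        have q3 := T.int (coef (h j) N (X a) (X b)) (T.mul _ _ _ _ _ _
          (t1 (Sum.inr a) (inr_mem_disjSum.2 ha)) (t1 (Sum.inr b) (inr_mem_disjSum.2 hb)))
        simp only [if_pos ha, if_pos hb]
        have q4 : (Q.thr 1 1 + Q.thr 1 g.succ + (2 * 1 - 1)).succ =
            Q.thr 1 (γ a) + (2 * 1 - 1) + (Q.thr 1 (γ b) + (2 * 1 - 1)) := by
          simp only [Nat.succ_eq_add_one] at q2 ⊢
          omega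
        rw [q4]
        exact q3
      · rw [coef_zero l2 (C.gap a ha).2 (C.gap b hb).2 e, Int.cast_zero, Int.cast_zero, zero_mul,
          zero_mul]
        exact T.zero _⟩
  obtain ⟨S, S1, S2⟩ := t3 (S' ∪ U.image fun r => w (Sum.inl r)) fun i hi => by
    rcases i with r | a
    · exact subset_cl (mem_coe.2 (mem_union_right _
        (mem_image_of_mem (fun r => w (Sum.inl r)) (inl_mem_disjSum.1 hi))))
    · have := c2 a
      rw [if_pos (inr_mem_disjSum.1 hi)] at this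
      exact cl_mono (coe_subset.2 subset_union_left) this
  have S3 := (card_union_le S' _).trans
    (add_le_add le_rfl (card_image_le (s := U) (f := fun r => w (Sum.inl r))))
  refine ⟨S, by omega, fun j u v => ?_⟩
  rw [← mo_un u, ← mo_un v]
  generalize un u = u
  generalize un v = v
  change IsAlgebraic _ (tab (nf j) u v)
  by_cases l : ky u < ky v
  · exact mem_cl.1 (fil_mem S2 (C.small hL (Φ := Φ) mono hz2 (m := ky v - ky u) (by omega)
      (H _ (by omega) u v) (by omega) j))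
  by_cases e : u = v
  · subst e
    by_cases hu : ins (h j) u
    · rw [(hL j).fix u u hu, if_pos rfl]; exact isAlgebraic_one
    · rw [(hL j).supp u u hu]; exact isAlgebraic_zero
  · rw [(hL j).zero e (not_lt.1 l)]; exact isAlgebraic_zero

end Pool.Agent.Lib.MP_ed43e6_ag.T
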