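import Pool.Agent.Lib.MP_ed43e6_ag.T.TDefs
import Pool.Agent.Lib.MP_ed43e6_ag.T.Third

/-! Soundness of the interpreter of tree certificates. -/

namespace Pool.Agent.Lib.MP_ed43e6_ag.T

open N Q

universe u

section

variable {α : Type}

theorem frc_eq (n : ℕ) (f : ℕ → α) : frc n f = f n := by cases n <;> rfl

theorem frcI_eq (c : ℤ) (k : ℤ → α) : frcI c k = k c := by
  cases c
  exacts [frc_eq _ fun m => k (Int.ofNat m), frc_eq _ fun m => k (Int.negSucc m)]

theorem frcR_eq (r : Row) (k : Row → α) : frcR r k = k r := by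
  induction r generalizing k with
  | nil => rfl
  | cons t tl ih =>
    change (frcI t.c fun c => frc t.a fun a => frc t.b fun b =>
      frcR tl fun tl => k (⟨c, a, b⟩ :: tl)) = _
    rw [frcI_eq, frc_eq, frc_eq, ih]

theorem frcS_eq (s : List Row) (k : List Row → α) : frcS s k = k s := by
  induction s generalizing k with
  | nil => rfl
  | cons r tl ih =>
    change (frcR r fun r' => frcS tl fun tl => k (r' :: tl)) = _
    rw [frcR_eq, ih]

theorem frcL_eq (l : List (ℤ × ℕ)) (k : List (ℤ × ℕ) → α) : frcL l k = k l := by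
  induction l generalizing k with
  | nil => rfl
  | cons p tl ih =>
    change (frcI p.1 fun c => frc p.2 fun a => frcL tl fun tl => k ((c, a) :: tl)) = _
    rw [frcI_eq, frc_eq, ih]

theorem frcU_eq (l : List ℕ) (k : List ℕ → α) : frcU l k = k l := by
  induction l generalizing k with
  | nil => rfl
  | cons p tl ih =>
    change (frc p fun a => frcU tl fun tl => k (a :: tl)) = _
    rw [frc_eq, ih]

/-- Substitution in one row. -/
noncomputable def subR (z : ℕ) (l : List (ℤ × ℕ)) (r : Row) : Row := cond (has z r) (sub z l r) r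

theorem subS_eq (z : ℕ) (l : List (ℤ × ℕ)) (s : List Row) (k : List Row → α) :
    subS z l s k = k (s.map (subR z l)) := by
  induction s generalizing k with
  | nil => rfl
  | cons r tl ih =>
    change cond (has z r) (frcR (sub z l r) fun r' => subS z l tl fun tl => k (r' :: tl))
      (subS z l tl fun tl => k (r :: tl)) = _
    rw [frcR_eq, ih, ih, List.map_cons, subR]
    cases has z r <;> rfl

/-- The largest weight and the terms of that weight. -/
noncomputable def topR (w e : ℕ) (r : Row) : ℕ × Row :=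
  List.rec (0, []) (fun t _ p => if wtT w e t = p.1 then (p.1, t :: p.2)
    else if wtT w e t ≤ p.1 then p else (wtT w e t, [t])) r

theorem top_eq (w e : ℕ) (r : Row) (k : ℕ → Row → α) :
    top w e r k = k (topR w e r).1 (topR w e r).2 := by
  induction r generalizing k with
  | nil => rfl
  | cons t tl ih =>
    change (top w e tl fun m tl => frc (wtT w e t) fun x =>
      cond (Nat.beq x m) (k m (t :: tl)) (cond (Nat.ble x m) (k m tl) (k x [t]))) = _
    have e1 : topR w e (t :: tl) = if wtT w e t = (topR w e tl).1 then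
        ((topR w e tl).1, t :: (topR w e tl).2) else if wtT w e t ≤ (topR w e tl).1 then
        topR w e tl else (wtT w e t, [t]) := rfl
    rw [ih, frc_eq, e1, Bool.cond_eq_ite, Bool.cond_eq_ite]
    simp only [Nat.beq_eq, Nat.ble_eq]
    split_ifs <;> rfl

theorem topS_eq (w e : ℕ) (s : List Row) (k : List Row → α) :
    topS w e s k = k (s.map fun r => (topR w e r).2) := by
  induction s generalizing k with
  | nil => rfl
  | cons r tl ih =>
    change (top w e r fun _ r' => topS w e tl fun tl => k (r' :: tl)) = _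
    rw [top_eq, ih, List.map_cons]

theorem rd_ex {k s : ℕ} {f : ℕ → ℕ → Bool} (h : rd k s f = true) : ∃ x s', f x s' = true := by
  rw [rd, frc_eq, frc_eq] at h
  exact ⟨_, _, h⟩

theorem cond_or {c a b : Bool} (h : cond c a b = true) : a = true ∨ b = true := by
  cases c
  exacts [Or.inr h, Or.inl h]

end

section

variable {F : Type u} [Field F] {y y1 : ℕ → F}

theorem ev_nil : ev y [] = 0 := rfl

theorem ev_cons (t : Tm) (r : Row) : ev y (t :: r) = t.c * (y t.a * y t.b) + ev y r :=
  List.sum_cons

theorem evl_nil : evl y [] = 0 := rfl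

theorem evl_cons (p : ℤ × ℕ) (l : List (ℤ × ℕ)) : evl y (p :: l) = p.1 * y p.2 + evl y l :=
  List.sum_cons

theorem isZ_iff {c : ℤ} : isZ c = true ↔ c = 0 := by rw [isZ, Nat.beq_eq, Int.natAbs_eq_zero]

theorem ev_ins0 (c : ℤ) (a b : ℕ) (r : Row) : ev y (ins0 c a b r) = c * (y a * y b) + ev y r := by
  induction r with
  | nil => exact ev_cons _ _
  | cons x tl ih =>
    change ev y (cond (and (Nat.beq x.a a) (Nat.beq x.b b)) (cond (isZ (x.c + c)) tl
      (⟨x.c + c, a, b⟩ :: tl)) (x :: ins0 c a b tl)) = _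
    rw [Bool.cond_eq_ite, Bool.cond_eq_ite]
    simp only [Bool.and_eq_true, Nat.beq_eq, isZ_iff]
    split_ifs with h1 h2
    · have : (x.c : F) + c = 0 := by rw [← Int.cast_add, h2, Int.cast_zero]
      rw [ev_cons, h1.1, h1.2]
      linear_combination -(y a * y b) * this
    · rw [ev_cons, ev_cons, h1.1, h1.2]
      push_cast
      ring
    · rw [ev_cons, ev_cons, ih]
      ring

theorem ev_addT (c : ℤ) (a b : ℕ) (r : Row) : ev y (addT c a b r) = c * (y a * y b) + ev y r := by
  rw [addT, Bool.cond_eq_ite, Bool.cond_eq_ite]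
  split_ifs with h1 h2
  · rw [isZ_iff.1 h1, Int.cast_zero, zero_mul, zero_add]
  · exact ev_ins0 ..
  · rw [ev_ins0, mul_comm (y b)]

theorem ev_addL (c : ℤ) (l : List (ℤ × ℕ)) (b : ℕ) (r : Row) :
    ev y (addL c l b r) = c * (evl y l * y b) + ev y r := by
  induction l with
  | nil => rw [evl_nil, zero_mul, mul_zero, zero_add]; rfl
  | cons p tl ih =>
    change ev y (addT (c * p.1) p.2 b (addL c tl b r)) = _
    rw [ev_addT, ih, evl_cons]
    push_cast
    ring

theorem ev_addQ (c : ℤ) (l : List (ℤ × ℕ)) (r : Row) :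
    ev y (addQ c l r) = c * (evl y l * evl y l) + ev y r := by
  have : ∀ l' : List (ℤ × ℕ), ev y (List.rec r (fun p _ ih => addL (Int.mul c p.1) l p.2 ih) l') =
      c * (evl y l * evl y l') + ev y r := fun l' => by
    induction l' with
    | nil => rw [evl_nil, mul_zero, mul_zero, zero_add]
    | cons p tl ih =>
      refine (ev_addL (c * p.1) l p.2 _).trans ?_
      rw [ih, evl_cons]
      push_cast
      ring
  exact this l

theorem hasT_iff {z : ℕ} {t : Tm} : hasT z t = true ↔ t.a = z ∨ t.b = z := by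
  rw [hasT, Bool.or_eq_true, Nat.beq_eq, Nat.beq_eq]

theorem ev_sub {z : ℕ} {l : List (ℤ × ℕ)} (h : ∀ i, i ≠ z → y i = y1 i) (hz : y z = evl y1 l)
    (r : Row) : ev y1 (sub z l r) = ev y r := by
  have : ∀ B s : Row, ev y1 (List.rec B (fun t _ ih => cond (Nat.beq t.a z)
      (cond (Nat.beq t.b z) (addQ t.c l ih) (addL t.c l t.b ih))
      (cond (Nat.beq t.b z) (addL t.c l t.a ih) ih)) s) + ev y1 (drop z s) =
      ev y1 B + ev y s := fun B s => by
    induction s with
    | nil => rfl
    | cons t tl ih =>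
      change ev y1 (cond (Nat.beq t.a z) (cond (Nat.beq t.b z) (addQ t.c l _) (addL t.c l t.b _))
        (cond (Nat.beq t.b z) (addL t.c l t.a _) _)) +
        ev y1 (cond (hasT z t) (drop z tl) (t :: drop z tl)) = _
      simp only [Bool.cond_eq_ite, Nat.beq_eq, hasT_iff] at ih ⊢
      rw [ev_cons]
      by_cases a : t.a = z <;> by_cases b : t.b = z
      · rw [if_pos a, if_pos b, if_pos (Or.inl a), ev_addQ, a, b, hz]
        linear_combination ih
      · rw [if_pos a, if_neg b, if_pos (Or.inl a), ev_addL, a, hz, h _ b]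
        linear_combination ih
      · rw [if_neg a, if_pos b, if_pos (Or.inr b), ev_addL, b, hz, h _ a]
        linear_combination ih
      · rw [if_neg a, if_neg b, if_neg (not_or.2 ⟨a, b⟩), ev_cons, h _ a, h _ b]
        linear_combination ih
  exact add_right_cancel ((this (drop z r) r).trans (add_comm _ _))

theorem ev_subR {z : ℕ} {l : List (ℤ × ℕ)} (h : ∀ i, i ≠ z → y i = y1 i) (hz : y z = evl y1 l)
    (r : Row) : ev y1 (subR z l r) = ev y r := by
  rw [subR]
  cases e : has z r
  · change ev y1 r = _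
    induction r with
    | nil => rfl
    | cons t tl ih =>
      change (hasT z t || has z tl) = false at e
      rw [Bool.or_eq_false_iff, Bool.eq_false_iff, Ne, hasT_iff, not_or] at e
      rw [ev_cons, ev_cons, ih e.2, h _ e.1.1, h _ e.1.2]
  · exact ev_sub h hz r

theorem ev_scale (c : ℤ) (r : Row) : ev y (scale c r) = c * ev y r := by
  induction r with
  | nil => exact (mul_zero _).symm
  | cons t tl ih =>
    change ev y (⟨c * t.c, t.a, t.b⟩ :: scale c tl) = _
    rw [ev_cons, ev_cons, ih]
    push_cast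
    ring

theorem ev_comb (c : ℤ) (r : Row) (d : ℤ) (r' : Row) :
    ev y (comb c r d r') = c * ev y r + d * ev y r' := by
  induction r' with
  | nil => rw [ev_nil, mul_zero, add_zero]; exact ev_scale c r
  | cons t tl ih =>
    change ev y (addT (d * t.c) t.a t.b (comb c r d tl)) = _
    rw [ev_addT, ih, ev_cons]
    push_cast
    ring

theorem ev_nth {s : List Row} (h : ∀ r ∈ s, ev y r = 0) (i : ℕ) : ev y (nth s i) = 0 := by
  induction s generalizing i with
  | nil => rfl
  | cons r tl ih =>
    cases i with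
    | zero => exact h r List.mem_cons_self
    | succ i => exact ih (fun x hx => h x (List.mem_cons_of_mem _ hx)) i

theorem mem_put {x r : Row} {s : List Row} {i : ℕ} (h : r ∈ put x s i) : r = x ∨ r ∈ s := by
  induction s generalizing i with
  | nil => exact Or.inr h
  | cons a tl ih =>
    cases i with
    | zero => exact (List.mem_cons.1 h).imp_right (List.mem_cons_of_mem _)
    | succ i =>
      rcases List.mem_cons.1 h with e | e
      · exact Or.inr (e ▸ List.mem_cons_self)
      · exact (ih e).imp_right (List.mem_cons_of_mem _)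

theorem ev_quo {u : ℕ} {r : Row} (h : allT u r = true) : ev y r = y u * evl y (quo u r) := by
  induction r with
  | nil => exact (mul_zero _).symm
  | cons t tl ih =>
    change (hasT u t && allT u tl) = true at h
    rw [Bool.and_eq_true, hasT_iff] at h
    change _ = y u * evl y ((t.c, cond (Nat.beq t.a u) t.b t.a) :: quo u tl)
    rw [ev_cons, evl_cons, ih h.2, Bool.cond_eq_ite]
    simp only [Nat.beq_eq]
    split_ifs with a
    · rw [a]; ring
    · rw [h.1.resolve_left a]; ring

theorem evl_rest {z : ℕ} (h : ∀ i, i ≠ z → y i = y1 i) (k : ℤ) (l : List (ℤ × ℕ)) :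
    evl y1 (rest z k l) = k * (evl y l - cof z l * y z) := by
  induction l with
  | nil => simp [rest, cof, evl_nil]
  | cons p tl ih =>
    change evl y1 (cond (Nat.beq p.2 z) (rest z k tl) ((k * p.1, p.2) :: rest z k tl)) =
      k * (_ - (cond (Nat.beq p.2 z) (p.1 + cof z tl) (cof z tl) : ℤ) * y z)
    simp only [Bool.cond_eq_ite, Nat.beq_eq]
    split_ifs with a
    · rw [ih, evl_cons, a]
      push_cast
      ring
    · rw [evl_cons, evl_cons, ih, h _ a]
      push_cast
      ring

theorem mem_iff {a : ℕ} {U : List ℕ} (h : mem a U = true) : a ∈ U := by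
  induction U with
  | nil => exact Bool.noConfusion h
  | cons x tl ih =>
    change (Nat.beq x a || mem a tl) = true at h
    rw [Bool.or_eq_true, Nat.beq_eq] at h
    exact List.mem_cons.2 (h.imp Eq.symm ih)

theorem mem_keep {w e a : ℕ} {U : List ℕ} (h : a ∈ keep w e U) : a ∈ U ∧ lane w e a = 0 := by
  induction U with
  | nil => exact absurd h List.not_mem_nil
  | cons x tl ih =>
    change a ∈ cond (Nat.beq (lane w e x) 0) (x :: keep w e tl) (keep w e tl) at h
    simp only [Bool.cond_eq_ite, Nat.beq_eq] at h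
    split_ifs at h with b
    · rcases List.mem_cons.1 h with rfl | c
      · exact ⟨List.mem_cons_self, b⟩
      · exact (ih c).imp_left (List.mem_cons_of_mem _)
    · exact (ih h).imp_left (List.mem_cons_of_mem _)

theorem mem_del {z a : ℕ} {U : List ℕ} (h : a ∈ del z U) : a ∈ U ∧ a ≠ z := by
  induction U with
  | nil => exact absurd h List.not_mem_nil
  | cons x tl ih =>
    change a ∈ cond (Nat.beq x z) (del z tl) (x :: del z tl) at h
    simp only [Bool.cond_eq_ite, Nat.beq_eq] at h
    split_ifs at h with b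
    · exact (ih h).imp_left (List.mem_cons_of_mem _)
    · rcases List.mem_cons.1 h with rfl | c
      · exact ⟨List.mem_cons_self, b⟩
      · exact (ih c).imp_left (List.mem_cons_of_mem _)

theorem bit_iff {V i : ℕ} : bit V i = true ↔ V.testBit i = true := by
  rw [bit, Nat.beq_eq, Nat.land_eq, Nat.and_one_is_mod, Nat.shiftRight_eq',
    Nat.shiftRight_eq_div_pow, Nat.testBit_eq_decide_div_mod_eq, decide_eq_true_eq]

theorem bit_clr {V z i : ℕ} (h : bit V z = true) :
    bit (clr V z) i = true ↔ i ≠ z ∧ bit V i = true := by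
  rw [bit_iff, Nat.testBit_eq_decide_div_mod_eq, decide_eq_true_eq] at h
  obtain ⟨q, hq⟩ : ∃ q, V / 2 ^ z = 2 * q + 1 := ⟨V / 2 ^ z / 2, by omega⟩
  have e := (Nat.div_add_mod V (2 ^ z)).symm
  have l := Nat.mod_lt V (Nat.two_pow_pos z)
  generalize V % 2 ^ z = r at e l
  rw [hq] at e
  have e' : clr V z = 2 ^ z * (2 * q) + r := by
    rw [clr, Nat.sub_eq, Nat.shiftLeft_eq', Nat.one_shiftLeft, e, mul_add]
    omega
  rw [bit_iff, bit_iff, e', e, Nat.testBit_two_pow_mul_add _ l, Nat.testBit_two_pow_mul_add _ l]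
  split_ifs with a
  · exact (and_iff_right a.ne).symm
  · obtain ⟨k, rfl⟩ := Nat.exists_eq_add_of_le (not_lt.1 a)
    rw [Nat.add_sub_cancel_left]
    cases k with
    | zero => simp
    | succ k =>
      rw [Nat.testBit_succ, Nat.testBit_succ, show 2 * q / 2 = q by omega,
        show (2 * q + 1) / 2 = q by omega, and_iff_right (by omega)]

theorem erase_bit {W : Finset ℕ} {V z : ℕ} (hW : ∀ i, i ∈ W ↔ bit V i = true)
    (h : bit V z = true) (i : ℕ) : i ∈ W.erase z ↔ bit (clr V z) i = true := by
  rw [Finset.mem_erase, bit_clr h, hW]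

variable {K : Type u} [Field K] [Algebra K F] {D : ℕ}

theorem okC_ne (hD : ∀ i : ℕ, 0 < i → i ≤ D → (i : K) ≠ 0) {c : ℤ} (h : okC D c = true) :
    (c : F) ≠ 0 := by
  rw [okC, Bool.and_eq_true, Nat.ble_eq, Nat.ble_eq] at h
  have h1 : ((c.natAbs : ℕ) : F) ≠ 0 := by
    rw [← map_natCast (algebraMap K F)]
    exact (map_ne_zero _).2 (hD _ h.1 h.2)
  rcases Int.natAbs_eq c with e | e <;> rw [e] <;> simpa using h1

theorem evl_mem {E : IntermediateField K F} (h : ∀ i, y i ∈ E) (l : List (ℤ × ℕ)) :
    evl y l ∈ E := by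
  induction l with
  | nil => exact zero_mem _
  | cons p tl ih => rw [evl_cons]; exact add_mem (mul_mem (intCast_mem _ _) (h _)) ih

theorem top_rl {G : Type u} [Field G] [Algebra K G] {Rl : ℕ → F → G → Prop} (T : Top K Rl)
    {z : ℕ → G} {w e : ℕ} (h : ∀ i, Rl (lane w e i) (y i) (z i)) (r : Row) :
    Rl (topR w e r).1 (ev y r) (ev z (topR w e r).2) := by
  induction r with
  | nil => exact T.zero 0
  | cons t tl ih =>
    have e1 : topR w e (t :: tl) = if wtT w e t = (topR w e tl).1 then
        ((topR w e tl).1, t :: (topR w e tl).2) else if wtT w e t ≤ (topR w e tl).1 then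
        topR w e tl else (wtT w e t, [t]) := rfl
    have h1 : Rl (wtT w e t) _ _ := T.int t.c (T.mul _ _ _ _ _ _ (h t.a) (h t.b))
    rw [e1, ev_cons]
    split_ifs with a b
    · rw [ev_cons]
      exact T.add _ _ _ _ _ (a ▸ h1) ih
    · simpa using T.add _ _ _ _ _ (T.lt h1 (lt_of_le_of_ne b a)) ih
    · rw [ev_cons, ev_nil]
      exact T.add _ _ _ _ _ h1 (T.lt ih (not_le.1 b))

theorem leaf_sound (hD : ∀ i : ℕ, 0 < i → i ≤ D → (i : K) ≠ 0) {w e : ℕ} {U : List ℕ}
    (hU : ∀ i ∈ U, y i ≠ 0) (s : List Row) (hs : ∀ r ∈ s, ev y (topR w e r).2 = 0) :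
    ∀ (mask V need : ℕ) (W : Finset ℕ), (∀ i, i ∈ W ↔ bit V i = true) →
      leaf D w e U s mask V need = true →
      ∃ S : Finset F, S.card + need ≤ W.card ∧ ∀ i ∈ W, y i ∈ cl K (S : Set F) := by
  classical
  induction s with
  | nil =>
    intro mask V need W _ h
    rw [Nat.eq_of_beq_eq_true h]
    exact ⟨W.image y, Finset.card_image_le, fun i hi =>
      subset_cl (Finset.mem_coe.2 (Finset.mem_image_of_mem _ hi))⟩
  | cons r s ih =>
    intro mask V need W hW h
    have ih := ih fun x hx => hs x (List.mem_cons_of_mem _ hx)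
    have h0 := hs r List.mem_cons_self
    have kill : ∀ a mask, y a = 0 → (bit V a && frc (clr V a) fun V' =>
        leaf D w e U s mask V' (Nat.pred need)) = true →
        ∃ S : Finset F, S.card + need ≤ W.card ∧ ∀ i ∈ W, y i ∈ cl K (S : Set F) := by
      intro a mask ha h
      rw [Bool.and_eq_true, frc_eq] at h
      obtain ⟨S, c1, c2⟩ := ih _ _ _ _ (erase_bit hW h.1) h.2
      have := Finset.card_erase_add_one ((hW a).2 h.1)
      refine ⟨S, by rw [Nat.pred_eq_sub_one] at c1; omega, fun i hi => ?_⟩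
      by_cases b : i = a
      · rw [b, ha]; exact zero_mem _
      · exact c2 i (Finset.mem_erase.2 ⟨b, hi⟩)
    change (frc (Nat.shiftRight mask 1) fun mask' => cond (Nat.beq (Nat.land mask 1) 0)
      (leaf D w e U s mask' V need) (top w e r fun _ r' => List.rec false (fun t tl _ => List.rec
        (and (okC D t.c) (cond (mem t.a U)
          (or (mem t.b U) (and (bit V t.b) (frc (clr V t.b) fun V' =>
            leaf D w e U s mask' V' (Nat.pred need))))
          (cond (or (mem t.b U) (Nat.beq t.a t.b))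
            (and (bit V t.a) (frc (clr V t.a) fun V' => leaf D w e U s mask' V' (Nat.pred need)))
            (and (and (bit V t.a) (bit V t.b)) (frc (clr (clr V t.a) t.b) fun V' =>
              leaf D w e U s mask' V' (Nat.pred need))))))
        (fun _ _ _ => false) tl) r')) = true at h
    rw [frc_eq, top_eq] at h
    rcases cond_or h with h | h
    · exact ih _ _ _ _ hW h
    generalize (topR w e r).2 = r' at h h0
    rcases r' with _ | ⟨t, _ | _⟩
    · exact Bool.noConfusion h
    · obtain ⟨h1, h⟩ := (Bool.and_eq_true _ _).mp h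
      rw [ev_cons, ev_nil, add_zero, mul_eq_zero, or_iff_right (okC_ne hD h1), mul_eq_zero] at h0
      cases a : mem t.a U
      · rw [a, cond_false] at h
        cases b : (mem t.b U || Nat.beq t.a t.b)
        · rw [b, cond_false, Bool.and_eq_true, Bool.and_eq_true, frc_eq] at h
          have ne : t.b ≠ t.a := fun x => by simp [x] at b
          have hb := (bit_clr h.1.1).2 ⟨ne, h.1.2⟩
          obtain ⟨S, c1, c2⟩ := ih _ _ _ _ (erase_bit (erase_bit hW h.1.1) hb) h.2
          have := Finset.card_erase_add_one ((hW _).2 h.1.1)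
          have := Finset.card_erase_add_one ((erase_bit hW h.1.1 _).2 hb)
          have := Finset.card_insert_le (y t.a + y t.b) S
          have m : y t.a + y t.b ∈ cl K ((insert (y t.a + y t.b) S : Finset F) : Set F) :=
            subset_cl (Finset.mem_coe.2 (Finset.mem_insert_self _ _))
          refine ⟨insert (y t.a + y t.b) S, by rw [Nat.pred_eq_sub_one] at c1; omega,
            fun i hi => ?_⟩
          by_cases x : i = t.a
          · rcases h0 with h0 | h0
            · rw [x, h0]; exact zero_mem _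
            · rw [x]; convert m using 1; rw [h0, add_zero]
          by_cases x' : i = t.b
          · rcases h0 with h0 | h0
            · rw [x']; convert m using 1; rw [h0, zero_add]
            · rw [x', h0]; exact zero_mem _
          exact cl_mono (Finset.coe_subset.2 (Finset.subset_insert _ _))
            (c2 i (Finset.mem_erase.2 ⟨x', Finset.mem_erase.2 ⟨x, hi⟩⟩))
        · rw [b, cond_true] at h
          rw [Bool.or_eq_true, Nat.beq_eq] at b
          exact kill _ _ (h0.elim id fun x => b.elim (fun c => (hU _ (mem_iff c) x).elim)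
            fun c => c ▸ x) h
      · rw [a, cond_true, Bool.or_eq_true] at h
        have x := h0.resolve_left (hU _ (mem_iff a))
        exact kill _ _ x (h.resolve_left fun c => hU _ (mem_iff c) x)
    · exact Bool.noConfusion h

end

variable {K : Type u} [Field K] {rows : List Row} {U : List ℕ} {W W' : Finset ℕ} {need : ℕ}

theorem bnd_deg {w e : ℕ} (H : ∀ (G : Type u) [Field G] [Algebra K G] (z : ℕ → G),
      (∀ i ∉ W, z i = 0) → (∀ r ∈ rows, ev z (topR w e r).2 = 0) → (∀ i ∈ keep w e U, z i ≠ 0) →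
      ∃ S : Finset G, S.card + need ≤ W.card ∧ ∀ i ∈ W, z i ∈ cl K (S : Set G)) :
    Bnd K rows U W need := by
  intro F _ _ y h1 h2 h3
  obtain ⟨G, _, _, z, Rl, T, t1, t2, t3⟩ := deg K F W y (lane w e)
  have r : ∀ i, Rl (lane w e i) (y i) (if i ∈ W then z i else 0) := fun i => by
    split_ifs with a
    · exact t1 i a
    · rw [h1 i a]; exact T.zero _
  obtain ⟨S, c1, c2⟩ := H G (fun i => if i ∈ W then z i else 0) (fun i a => if_neg a)
    (fun x hx => T.uniq _ _ (h2 x hx ▸ top_rl T r x)) fun i hi => by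
      obtain ⟨a, b⟩ := mem_keep hi
      have c : i ∈ W := not_not.1 fun c => h3 i a (h1 i c)
      rw [if_pos c]
      exact t2 i c b (h3 i a)
  obtain ⟨S', d1, d2⟩ := t3 S fun i hi => by simpa only [if_pos hi] using c2 i hi
  refine ⟨S', by omega, fun i => ?_⟩
  by_cases a : i ∈ W
  · exact d2 i a
  · rw [h1 i a]; exact zero_mem _

theorem Bnd.step {z : ℕ} {l : List (ℤ × ℕ)} (H : Bnd K (rows.map (subR z l)) (del z U) W' need)
    {F : Type u} [Field F] [Algebra K F] {y y1 : ℕ → F} (h : ∀ i, i ≠ z → y i = y1 i)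
    (hz : y z = evl y1 l) (h1 : ∀ i ∉ W', y1 i = 0) (h2 : ∀ r ∈ rows, ev y r = 0)
    (h3 : ∀ i ∈ U, y i ≠ 0) :
    ∃ S : Finset F, S.card + need ≤ W'.card ∧ ∀ i, y i ∈ cl K (S : Set F) := by
  obtain ⟨S, c1, c2⟩ := H F y1 h1 (fun r hr => by
      obtain ⟨x, hx, rfl⟩ := List.mem_map.1 hr
      rw [ev_subR h hz, h2 x hx])
    fun i hi => h i (mem_del hi).2 ▸ h3 i (mem_del hi).1
  refine ⟨S, c1, fun i => ?_⟩
  by_cases a : i = z
  · rw [a, hz]; exact evl_mem c2 l
  · rw [h i a]; exact c2 i

theorem Bnd.elim {z : ℕ} {l : List (ℤ × ℕ)} (hW : z ∈ W)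
    (H : Bnd K (rows.map (subR z l)) (del z U) (W.erase z) (Nat.pred need))
    {F : Type u} [Field F] [Algebra K F] {y : ℕ → F} (hz : y z = evl (Function.update y z 0) l)
    (h1 : ∀ i ∉ W, y i = 0) (h2 : ∀ r ∈ rows, ev y r = 0) (h3 : ∀ i ∈ U, y i ≠ 0) :
    ∃ S : Finset F, S.card + need ≤ W.card ∧ ∀ i, y i ∈ cl K (S : Set F) := by
  obtain ⟨S, c1, c2⟩ := H.step (fun i a => (Function.update_of_ne a _ _).symm) hz (fun i hi => by
    by_cases a : i = z
    · rw [a, Function.update_self]
    · rw [Function.update_of_ne a]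
      exact h1 i fun b => hi (Finset.mem_erase.2 ⟨a, b⟩)) h2 h3
  have := Finset.card_erase_add_one hW
  exact ⟨S, by rw [Nat.pred_eq_sub_one] at c1; omega, c2⟩

theorem runStmt : RunStmt.{u} := by
  classical
  intro K _ D hD fuel
  induction fuel with
  | zero => exact fun _ _ _ _ _ _ _ h => Bool.noConfusion h
  | succ fuel ih =>
    intro s rows U V need W hW h
    rcases (Bool.or_eq_true _ _).mp h with h | h
    · intro F _ _ y h1 _ _
      rw [Nat.eq_of_beq_eq_true h]
      refine ⟨W.image y, Finset.card_image_le, fun i => ?_⟩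
      by_cases a : i ∈ W
      · exact subset_cl (Finset.mem_coe.2 (Finset.mem_image_of_mem _ a))
      · rw [h1 i a]; exact zero_mem _
    obtain ⟨op, s, h⟩ := rd_ex h
    rcases cond_or h with h | h
    · obtain ⟨w, s, h⟩ := rd_ex h
      obtain ⟨m, s, h⟩ := rd_ex h
      obtain ⟨mask, e, h⟩ := rd_ex h
      rw [frcU_eq] at h
      exact bnd_deg fun G _ _ z _ a b => leaf_sound hD b rows a _ _ _ _ hW h
    rcases cond_or h with h | h
    · obtain ⟨i, s, h⟩ := rd_ex h
      obtain ⟨j, s, h⟩ := rd_ex h
      obtain ⟨c, s, h⟩ := rd_ex h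
      obtain ⟨d, s, h⟩ := rd_ex h
      rw [frcR_eq] at h
      intro F _ _ y h1 h2 h3
      refine ih _ _ _ _ _ W hW h F y h1 (fun r hr => ?_) h3
      rcases mem_put hr with rfl | a
      · rw [ev_comb, ev_nth h2, ev_nth h2, mul_zero, mul_zero, add_zero]
      · exact h2 r a
    rcases cond_or h with h | h
    · obtain ⟨z, s, h⟩ := rd_ex h
      obtain ⟨j, s, h⟩ := rd_ex h
      obtain ⟨c, s, h⟩ := rd_ex h
      rw [Bool.and_eq_true, Bool.and_eq_true, frcI_eq, subS_eq, frcU_eq] at h
      have ne : j ≠ z := fun x => by simpa [x] using h.1.2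
      intro F _ _ y h1 h2 h3
      refine (ih _ _ _ _ _ W hW h.2).step (y1 := Function.update y z (y z - sgn c * y j))
        (fun i a => (Function.update_of_ne a _ _).symm) ?_ (fun i hi => ?_) h2 h3
      · rw [evl_cons, evl_cons, evl_nil, Function.update_self, Function.update_of_ne ne]
        push_cast
        ring
      · rw [Function.update_of_ne fun a : i = z => hi (a ▸ (hW z).2 h.1.1)]
        exact h1 i hi
    rcases cond_or h with h | h
    · obtain ⟨w, s, h⟩ := rd_ex h
      obtain ⟨m, s, h⟩ := rd_ex h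
      obtain ⟨e, s, h⟩ := rd_ex h
      rw [frcU_eq, topS_eq] at h
      refine bnd_deg (w := w) (e := e) fun G _ _ z a b c => ?_
      obtain ⟨S, c1, c2⟩ := ih _ _ _ _ _ W hW h G z a (fun r hr => by
        obtain ⟨x, hx, rfl⟩ := List.mem_map.1 hr
        exact b x hx) c
      exact ⟨S, c1, fun i _ => c2 i⟩
    rcases cond_or h with h | h
    · obtain ⟨i, s, h⟩ := rd_ex h
      obtain ⟨u, s, h⟩ := rd_ex h
      obtain ⟨z, s, h⟩ := rd_ex h
      rw [Bool.and_eq_true, Bool.and_eq_true, Bool.and_eq_true, frcL_eq, frcI_eq, frcL_eq,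
        Bool.and_eq_true, subS_eq, frcU_eq, frc_eq] at h
      obtain ⟨⟨⟨a1, a2⟩, a3⟩, a4, a5⟩ := h
      intro F _ _ y h1 h2 h3
      refine (ih _ _ _ _ _ _ (erase_bit hW a2) a5).elim ((hW z).2 a2) ?_ h1 h2 h3
      have b := ev_quo (y := y) a3
      rw [ev_nth h2, eq_comm, mul_eq_zero, or_iff_right (h3 u (mem_iff a1))] at b
      have b' := evl_rest (z := z) (fun i a => (Function.update_of_ne a (0 : F) y).symm)
        (Int.neg (cof z (quo u (nth rows i)))) (quo u (nth rows i))
      rw [b] at b'
      generalize rest z (Int.neg (cof z (quo u (nth rows i)))) (quo u (nth rows i)) = l' at a4 b' ⊢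
      generalize cof z (quo u (nth rows i)) = c at a4 b'
      have e : ((Int.neg c : ℤ) : F) = -c := Int.cast_neg c
      rw [e] at b'
      cases l' with
      | nil =>
        have n : (c : F) ≠ 0 := okC_ne hD a4
        rw [evl_nil] at b' ⊢
        exact mul_left_cancel₀ (mul_ne_zero n n) (by linear_combination -b')
      | cons p tl =>
        rw [b']
        rcases Int.natAbs_eq_iff.1 (Nat.eq_of_beq_eq_true a4) with x | x <;> rw [x] <;> simp
    rcases cond_or h with h | h
    · obtain ⟨i, s, h⟩ := rd_ex h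
      intro F _ _ y h1 h2 h3
      have b := ev_nth h2 i
      generalize nth rows i = r at h b
      rcases r with _ | ⟨t, tl⟩
      · exact Bool.noConfusion h
      obtain ⟨a, h'⟩ := (Bool.and_eq_true _ _).mp h
      rw [Bool.and_eq_true, Bool.and_eq_true, Bool.and_eq_true, Nat.beq_eq] at a
      obtain ⟨⟨a1, a2⟩, a3, a4⟩ := a
      rw [subS_eq, frcU_eq, frc_eq] at h'
      rcases tl with _ | _
      · rw [ev_cons, ev_nil, add_zero, mul_eq_zero, or_iff_right (okC_ne hD a2), ← a3,
          mul_self_eq_zero] at b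
        exact (ih _ _ _ _ _ _ (erase_bit hW a4) h').elim ((hW _).2 a4) b h1 h2 h3
      · exact Bool.noConfusion a1
    · obtain ⟨z, s, h⟩ := rd_ex h
      obtain ⟨m, s, h⟩ := rd_ex h
      obtain ⟨s0, s1, h⟩ := rd_ex h
      rw [Bool.and_eq_true, Bool.and_eq_true, subS_eq, frcU_eq, frc_eq] at h
      intro F _ _ y h1 h2 h3
      by_cases a : y z = 0
      · exact (ih _ _ _ _ _ _ (erase_bit hW h.1) h.2.2).elim ((hW _).2 h.1) a h1 h2 h3
      · exact ih _ _ _ _ _ W hW h.2.1 F y h1 h2 fun i hi =>
          (List.mem_cons.1 hi).elim (fun e => e ▸ a) (h3 i)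

end Pool.Agent.Lib.MP_ed43e6_ag.T
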