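import Pool.Agent.Lib.MP_ed43e6_ag.T.Cls3
import Pool.Agent.Lib.MP_ed43e6_ag.T.Run
import Pool.Agent.Lib.MP_ed43e6_ag.Q.Comb
import Pool.Agent.Lib.MP_ed43e6_ag.Q.Pk
import Pool.Agent.Lib.MP_ed43e6_ag.Q.Ext
import Pool.Agent.Lib.MP_ed43e6_ag.Q.L3Spec

/-! Erasing superfluous roots, and the reduction of the check of a flag to the tree check. -/

namespace Pool.Agent.Lib.MP_ed43e6_ag.T

open Finset N Q Q.Bd

universe u

/-- The pair written by a word. -/
noncomputable def rt (x : ℕ) : RT := ((f3 x 0, f4 x 3, f5 x 7), (f3 x 12, f4 x 15, f5 x 19))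

theorem f3_eq (x k : ℕ) : f3 x k = x / 2 ^ k % 8 := by
  rw [f3, Nat.land_eq, Nat.shiftRight_eq, Nat.shiftRight_eq_div_pow]
  exact Nat.and_two_pow_sub_one_eq_mod _ 3

theorem f4_eq (x k : ℕ) : f4 x k = x / 2 ^ k % 16 := by
  rw [f4, Nat.land_eq, Nat.shiftRight_eq, Nat.shiftRight_eq_div_pow]
  exact Nat.and_two_pow_sub_one_eq_mod _ 4

theorem f5_eq (x k : ℕ) : f5 x k = x / 2 ^ k % 32 := by
  rw [f5, Nat.land_eq, Nat.shiftRight_eq, Nat.shiftRight_eq_div_pow]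
  exact Nat.and_two_pow_sub_one_eq_mod _ 5

theorem rt_inj {x y : ℕ} (hx : x < 2 ^ 24) (hy : y < 2 ^ 24) (h : rt x = rt y) : x = y := by
  simp only [rt, Prod.mk.injEq, f3_eq, f4_eq, f5_eq] at h
  omega

theorem lane_lt (w e i : ℕ) : lane w e i < 2 ^ w := Nat.mod_lt _ (Nat.two_pow_pos w)

theorem lane_pk {w n j : ℕ} {f : ℕ → ℕ} (h : ∀ i < n, f i < 2 ^ w) (hj : j < n) :
    lane w (Q.pk w n f) j = f j := by
  rw [← pk_get w n f j h hj, Nat.and_two_pow_sub_one_eq_mod]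
  rfl

variable {h h0 h2 : ℕ → ℕ → ℕ} {S N n H D C Rm p0 q0 a1 b1 : ℕ} {d c : ℕ → ℕ}

theorem lane_H (sp : Spec h S N n H D C Rm d c) (hb : ∀ a b, h a b ≤ 22) {p q : ℕ} (hq : q < S)
    (hi : S * p + q < N) : lane 12 H (S * p + q) = h p q := by
  rw [sp.H_eq, lane_pk (fun i _ => (hb _ _).trans_lt (by norm_num)) hi, idx_div hq, idx_mod hq]

theorem lane_R (sp : Spec h S N n H D C Rm d c) (hb : ∀ a b, h a b ≤ 22) {p q a b : ℕ} (hq : q < S)
    (hi : S * p + q < N) (hq' : b < S) (hj : S * a + b < N) :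
    lane 12 Rm (N * (S * a + b) + (S * p + q)) = room h p q a b := by
  rw [sp.R_eq, lane_pk, idx_div hi, idx_mod hi, idx_div hq, idx_mod hq, idx_div hq', idx_mod hq']
  · intro l _
    refine ((min_le_left _ _).trans (min_le_right _ _)).trans_lt ?_
    unfold rx
    split_ifs
    · exact (Nat.sub_le _ _).trans_lt ((hb _ _).trans_lt (by norm_num))
    · norm_num
  · calc _ < N * (S * a + b) + N := by omega
      _ = N * (S * a + b + 1) := by ring
      _ ≤ _ := Nat.mul_le_mul_left _ hj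

theorem kyN_eq (a b t : ℕ) : kyN a b t = key a b t := by
  simp only [kyN, key, Nat.add_eq, Nat.mul_eq]
  omega

theorem idx_inj {p q a b : ℕ} (hq : q < S) (hb : b < S) (e : S * p + q = S * a + b) :
    p = a ∧ q = b :=
  ⟨by rw [← idx_div (p := p) hq, e, idx_div hb], by rw [← idx_mod (p := p) hq, e, idx_mod hb]⟩

theorem inR_spec (sp : Spec h S N n H D C Rm d c) (hb : ∀ a b, h a b ≤ 22) (h0 : q0 < S)
    (h1 : b1 < S) {p q s a b t : ℕ}
    (e : inR S N H Rm (S * p0 + q0) (S * a1 + b1) p q s a b t (S * p + q) (S * a + b) = true) :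
    ((p, q, s), (a, b, t)) ∈ R1 h S N p0 q0 a1 b1 := by
  simp only [inR, Bd.band_iff, Bd.bor_iff, Nat.blt_eq, Nat.ble_eq, Nat.beq_eq, Nat.add_eq,
    Nat.mul_eq, Nat.sub_eq, Nat.succ_eq_add_one, Nat.pred_eq_sub_one, kyN_eq] at e
  obtain ⟨⟨⟨hq, hq'⟩, hi, hj⟩, e⟩ := e
  have hS : 0 < S := by omega
  rw [lane_H sp hb hq hi, lane_H sp hb hq' hj, lane_R sp hb hq hi hq' hj] at e
  rcases e with e | ⟨k, ⟨⟨⟨e1, e2⟩, e3⟩, e4, e5⟩ | ⟨⟨e1, e2⟩, e3⟩⟩
  · exact mem_union_left _ (mem_union_left _ ((mem_RA hS).2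
      ⟨⟨hq, hi⟩, ⟨hq', hj⟩, e.1.2, by omega, by omega⟩))
  · obtain ⟨rfl, rfl⟩ := idx_inj hq' h0 e1
    subst e2 e3
    refine mem_union_left _ (mem_union_right _ ((mem_RB hS).2
      ⟨⟨hq, hi⟩, lt_min ?_ ?_, k, rfl, rfl, rfl, rfl⟩))
    · have := hb p q
      unfold dx
      cases p with
      | zero => rw [if_pos rfl]; omega
      | succ p =>
        rw [show S * (p + 1) + q - S = S * p + q by rw [mul_add]; omega,
          lane_H sp hb hq (by rw [mul_add] at hi; omega)] at e4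
        rw [if_neg (Nat.succ_ne_zero p), Nat.add_sub_cancel]
        omega
    · have := hb p q
      unfold dy
      cases q with
      | zero => rw [if_pos rfl]; omega
      | succ q =>
        rw [show S * p + (q + 1) - 1 = S * p + q by omega,
          lane_H sp hb (by omega) (by omega)] at e5
        rw [if_neg (Nat.succ_ne_zero q), Nat.add_sub_cancel]
        omega
  · obtain ⟨rfl, rfl⟩ := idx_inj hq h1 e1
    obtain rfl : s = h p q - 1 := by omega
    obtain rfl : t = h a b - 1 := by omega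
    exact mem_union_right _ ((mem_RC hS).2 ⟨⟨hq', hj⟩, by omega, k, rfl, rfl, rfl, rfl⟩)

theorem inX_spec (sp : Spec h S N n H D C Rm d c) (hb : ∀ a b, h a b ≤ 22) (h0 : q0 < S)
    (h1 : b1 < S) {x : ℕ} (e : inX S N H Rm (S * p0 + q0) (S * a1 + b1) x = true) :
    rt x ∈ R1 h S N p0 q0 a1 b1 := by
  simp only [inX, T.frc_eq] at e
  exact inR_spec sp hb h0 h1 e

theorem sml_spec {x : ℕ} (e : sml x = true) : Dl (dA x) (dB x) (dT x) (rt x).1 (rt x).2 ∧
    (rt x).2.2.1 < 11 ∧ (rt x).2.2.2 < 23 ∧ dB x ≤ 22 ∧ dT x ≤ 46 := by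
  simp only [sml, Bd.band_iff, Nat.ble_eq] at e
  have := f3_eq x 0
  simp only [Dl, dA, dB, dT, rt, Nat.add_eq, Nat.sub_eq]
  omega

theorem tg_eq (x : ℕ) : tg x = Bd.pos (rt x).2 := rfl

variable {g : Fin 3 → ℕ → ℕ → ℕ} {z0 z1 z2 i0 i1 x y : ℕ} {G : Pr}

theorem era_spec (L : Lv3 g z0 z1 z2) (hG : ∀ j, Links (g j) G)
    (e : era S N H Rm i0 i1 z0 z1 z2 x y = true)
    (hy : x < y → inX S N H Rm i0 i1 y = true → ap G (rt y).1 (rt y).2) :
    ap G (rt x).1 (rt x).2 := by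
  simp only [era, T.frc_eq, Bd.band_iff] at e
  obtain ⟨⟨-, s⟩, b, e⟩ := e
  obtain ⟨s1, s2, s3, s4, s5⟩ := sml_spec s
  suffices H : At (dA x) (dB x) (dT x) G (tg x) from H _ _ rfl s1 s2 s3
  rcases cond_or e with e | e
  · rw [Bool.not_eq_true', ← Bool.not_eq_true, sub_iff, Bd.Sub] at e
    push Not at e
    obtain ⟨p, a, a'⟩ := e
    exact (cls3_iff L s4 s5 hG a).1 (fun b => (a' b).elim) (bit_iff.1 b)
  · simp only [Bd.band_iff, Nat.blt_eq, Nat.beq_eq] at e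
    obtain ⟨⟨⟨l, i⟩, s', -⟩, ⟨e1, e2, e3⟩, a⟩ := e
    obtain ⟨t1, t2, t3, -⟩ := sml_spec s'
    rw [e1, e2, e3] at t1
    exact (cls3_iff L s4 s5 hG (bit_iff.1 a)).1
      (fun _ => At.of t1 (by omega) (by omega) (hy l i)) (bit_iff.1 b)

theorem era_in (e : era S N H Rm i0 i1 z0 z1 z2 x y = true) : inX S N H Rm i0 i1 x = true :=
  (Bd.band_iff.1 (Bd.band_iff.1 e).1).1

theorem eras_spec (L : Lv3 g z0 z1 z2) {R : Finset RT} (hR : Roots (g 0) (g 1) (g 2) R)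
    (hin : ∀ x, inX S N H Rm i0 i1 x = true → rt x ∈ R) {E m : ℕ}
    (e : eras S N H Rm i0 i1 z0 z1 z2 E m = true) :
    ∃ R', Roots (g 0) (g 1) (g 2) R' ∧ R'.card + m = R.card := by
  simp only [eras, Bd.allLt_iff, T.frc_eq, Bd.band_iff, Nat.blt_eq] at e
  obtain ⟨xs, hxs⟩ : ∃ xs : ℕ → ℕ, ∀ i, lane 24 E (Nat.mul 2 i) = xs i := ⟨_, fun _ => rfl⟩
  have lt : ∀ i, xs i < 2 ^ 24 := fun i => hxs i ▸ lane_lt _ _ _
  have mono : ∀ j ≤ m, ∀ i < j, xs i < xs j := by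
    intro j
    induction j with
    | zero => exact fun _ i hi => absurd hi (Nat.not_lt_zero i)
    | succ j ih =>
      intro hj i hi
      have h1 : xs j < xs (j + 1) := by rw [← hxs, ← hxs]; exact (e j hj).1
      rcases Nat.lt_succ_iff_lt_or_eq.1 hi with h | h
      · exact (ih (by omega) i h).trans h1
      · rwa [h]
  have c1 : ((range m).image fun i => rt (xs i)).card = m := by
    rw [card_image_of_injOn, card_range]
    intro i hi j hj a
    have a := rt_inj (lt i) (lt j) a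
    have hi := mem_range.1 (mem_coe.1 hi)
    have hj := mem_range.1 (mem_coe.1 hj)
    by_contra ne
    rcases lt_or_gt_of_ne ne with l | l
    · exact (mono j hj.le i l).ne a
    · exact (mono i hi.le j l).ne' a
  have c2 : ((range m).image fun i => rt (xs i)) ⊆ R := fun r hr => by
    obtain ⟨i, hi, rfl⟩ := mem_image.1 hr
    exact hin _ (hxs i ▸ era_in (e i (mem_range.1 hi)).2)
  refine ⟨R \ (range m).image fun i => rt (xs i), fun G l0 l1 l2 hn hr => ?_,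
    by rw [← card_sdiff_add_card_eq_card c2, c1]⟩
  have hG : ∀ j, Links (g j) G := fun j => by
    fin_cases j
    exacts [l0, l1, l2]
  have key : ∀ k x, x < 2 ^ 24 → 2 ^ 24 ≤ x + k → rt x ∈ R → ap G (rt x).1 (rt x).2 := by
    intro k
    induction k with
    | zero => exact fun x a b => absurd a (not_lt.2 b)
    | succ k ih =>
      intro x a b r
      by_cases hx : rt x ∈ (range m).image fun i => rt (xs i)
      · obtain ⟨i, hi, q⟩ := mem_image.1 hx
        obtain rfl := rt_inj (lt i) a q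
        exact era_spec L hG (hxs i ▸ (e i (mem_range.1 hi)).2) fun l r' =>
          ih _ (lane_lt _ _ _) (by omega) (hin _ r')
      · exact hr _ (mem_sdiff.2 ⟨r, hx⟩)
  refine hR G l0 l1 l2 hn fun r a => ?_
  by_cases hx : r ∈ (range m).image fun i => rt (xs i)
  · obtain ⟨i, -, rfl⟩ := mem_image.1 hx
    exact key _ _ (lt i) (Nat.le_add_left _ _) a
  · exact hr _ (mem_sdiff.2 ⟨a, hx⟩)

theorem tp_eq (sp : Spec h S N n H D C Rm d c) (hb : ∀ a b, h a b ≤ 22) {p q : ℕ} (hq : q < S)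
    (hi : S * p + q < N) : tp S H (S * p + q) = Bd.pos (p, q, h p q) := by
  have e1 : Nat.div (S * p + q) S = p := idx_div hq
  have e2 : Nat.mod (S * p + q) S = q := idx_mod hq
  rw [tp, lane_H sp hb hq hi, e1, e2]
  simp only [code_eq, ix, Bd.pos, Nat.add_eq]
  omega

theorem lv3_of {u0 u1 : T3} {z : ℕ} (F : Flag h0 h h2 u0 u1 z) :
    Lv3 ![h0, h, h2] (Nat.lor z (Nat.shiftLeft 1 (Bd.pos u0))) z
      (Nat.xor z (Nat.shiftLeft 1 (Bd.pos u1))) := by
  have b2 : Bdd h2 := fun a b t e => F.b1.lt (v := (a, b, t)) ((F.i1 _).2 (Or.inl e))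
  have z0 : IsB h0 (Nat.lor z (Nat.shiftLeft 1 (Bd.pos u0))) := fun i => by
    rw [bit_or, bit_one]
    constructor
    · rintro (a | rfl)
      · obtain ⟨v, rfl, b⟩ := F.isb.ex a
        exact ⟨_, _, _, rfl, (F.i0 v).2 (Or.inl b)⟩
      · exact ⟨_, _, _, rfl, F.in0⟩
    · rintro ⟨a, b, t, rfl, e⟩
      rcases (F.i0 (a, b, t)).1 e with e | rfl
      exacts [Or.inl (F.isb.pos e), Or.inr rfl]
  have z2 : IsB h2 (Nat.xor z (Nat.shiftLeft 1 (Bd.pos u1))) := fun i => by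
    rw [bit_xor, bit_one]
    constructor
    · intro a
      have hz : z.testBit i := by
        by_contra b
        exact a ⟨fun x => (b x).elim, fun x => x ▸ F.isb.pos F.in1⟩
      obtain ⟨v, rfl, b⟩ := F.isb.ex hz
      rcases (F.i1 v).1 b with e | rfl
      · exact ⟨_, _, _, rfl, e⟩
      · exact (a ⟨fun _ => rfl, fun _ => hz⟩).elim
    · rintro ⟨a, b, t, rfl, e⟩ x
      have i1 : ins h (a, b, t) := (F.i1 _).2 (Or.inl e)
      have l1 := F.b1.lt i1
      have l2 := F.b1.lt F.in1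
      have := pos_inj (u := (a, b, t)) (x.1 (F.isb.pos i1)) (by omega) (by omega) (by omega)
        (by omega)
      exact F.n1 (this ▸ e)
  refine ⟨fun j => ?_, fun j => ?_, fun j => ?_, fun j => ?_⟩ <;> fin_cases j
  exacts [z0, F.isb, z2, F.b0, F.b1, b2, F.a0, F.a1, F.a2, fun _ a => a,
    fun _ a => bit_or.2 (Or.inl a), fun i a => by
      obtain ⟨v, rfl, b⟩ := z2.ex a
      exact bit_or.2 (Or.inl (F.isb.pos ((F.i1 v).2 (Or.inl b))))]

theorem l3_of {P : GP} (hF : ∀ g z0 z1 z2 n need s, Lv3 g z0 z1 z2 →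
    fin3 z0 z1 z2 n need s = true → P g n need) : L3Sound P l3 := by
  intro h h0 h2 S N n H D C Rm d c z p0 q0 a1 b1 cert sp hz e0 e1 B0 B2 hb e
  obtain ⟨k1, k2, k3, k4, -, hR, hc⟩ := sp.flag h0 h2 p0 q0 a1 b1 e0 e1 B0 B2
  have F := flag_of e0 e1 B0 sp.bor B2 hb hz
  have hb' : ∀ a b, h a b ≤ 22 := fun a b => by
    by_contra x
    have := F.b1 a b 22 (not_le.1 x)
    omega
  have t1 : Nat.sub (tp S H (S * a1 + b1)) 1 = Bd.pos (a1, b1, h2 a1 b1) := by
    have : h a1 b1 = h2 a1 b1 + 1 := by rw [e1]; exact if_pos ⟨rfl, rfl⟩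
    rw [tp_eq sp hb' (by omega) (by omega), this]
    rfl
  simp only [l3, T.frc_eq] at e
  rw [tp_eq sp hb' k1 k2, t1] at e
  obtain ⟨m, s, e⟩ := rd_ex e
  obtain ⟨E, s, e⟩ := rd_ex e
  obtain ⟨r1, r2⟩ := Bd.band_iff.1 e
  obtain ⟨R, q1, q2⟩ := eras_spec (lv3_of F) hR (fun x => inX_spec sp hb' k1 (by omega)) r1
  refine ⟨R, _, q1, sp.size_eq ▸ hF _ _ _ _ _ _ _ (lv3_of F) r2, ?_⟩
  simp only [Nat.add_eq, Nat.sub_eq, Nat.mul_eq, sp.size_eq]
  omega

end Pool.Agent.Lib.MP_ed43e6_ag.T
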