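import Pool.Agent.Lib.MP_ed43e6_ag.T.L3S
import Pool.Agent.Lib.MP_ed43e6_ag.Q.Ok2S
import Pool.Agent.Lib.MP_ed43e6_ag.Q.WkS
import Pool.Agent.Lib.MP_ed43e6_ag.Q.GenAll

/-! From the statements of the run files to the irreducibility of the spaces of tables. -/

namespace Pool.Agent.Lib.MP_ed43e6_ag.T

open MvPolynomial N Q

universe u

theorem checkP_W {M : ℕ} {fl t : KT} (hM : M ≤ 57) (h3 : Ok (jc l3) fl)
    (h : OkW M (jb2 M fl) t) (e : Fo.walk M t = true) : CheckP PT.{u} M :=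
  checkP_of_walk hM (h.good hM (fun _ hs hl => absurd hl (by omega)) fun b _ x =>
    job_sound hM (chk_sound hM (fun _ _ => hPT _ _ _ (gain_zero _ _))
      (Bd.XF.hook_sound hPT (l3k_sound l3_sound h3) b)) (F2.job_eq M _ ▸ x)) e

theorem tables_primeW {M : ℕ} {fl t : KT} (hM : M ≤ 57) (h3 : Ok (jc l3) fl)
    (h : OkW M (jb2 M fl) t) (e : Fo.walk M t = true) (K : Type u) [Field K] [IsAlgClosed K]
    (d : ℕ) (hd : d ≤ M + 1) (hk : ringChar K = 0 ∨ d ≤ ringChar K) :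
    (vanishingIdeal K (tables K (Fin d))).IsPrime :=
  tables_primeP secondP_PT M (by omega) (checkP_W hM h3 h e) K d hd hk

end Pool.Agent.Lib.MP_ed43e6_ag.T
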