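import Pool.Agent.Lib.MP_ed43e6_ag.T.Cls3
import Pool.Agent.Lib.MP_ed43e6_ag.T.Run
import Pool.Agent.Lib.MP_ed43e6_ag.Q.Mx

/-! The listed classes, their quadrics and the tree certificate give a gain. -/

namespace Pool.Agent.Lib.MP_ed43e6_ag.T

open Finset N Q Q.Bd

universe u

/-- The list `R (n - 1), …, R 0`. -/
def dn {α : Type} (R : ℕ → α) : ℕ → List α
  | 0 => []
  | n + 1 => R n :: dn R n

theorem mem_dn {α : Type} {R : ℕ → α} {n : ℕ} {x : α} : x ∈ dn R n ↔ ∃ a < n, R a = x := by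
  induction n with
  | zero => exact ⟨fun h => absurd h List.not_mem_nil, fun ⟨a, h, _⟩ => absurd h a.not_lt_zero⟩
  | succ n ih =>
    rw [dn, List.mem_cons, ih]
    constructor
    · rintro (rfl | ⟨a, h, e⟩)
      exacts [⟨n, n.lt_succ_self, rfl⟩, ⟨a, h.trans n.lt_succ_self, e⟩]
    · rintro ⟨a, h, rfl⟩
      rcases Nat.lt_succ_iff_lt_or_eq.1 h with h | rfl
      exacts [Or.inr ⟨a, h, rfl⟩, Or.inl rfl]

theorem map_dn {α β : Type} (R : ℕ → α) (f : α → β) (n : ℕ) :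
    (dn R n).map f = dn (fun a => f (R a)) n := by
  induction n with
  | zero => rfl
  | succ n ih => rw [dn, List.map_cons, ih, dn]

theorem sum_dn {α : Type} {F : Type u} [AddCommMonoid F] (R : ℕ → α) (f : α → F) (n : ℕ) :
    ((dn R n).map f).sum = ∑ a ∈ range n, f (R a) := by
  induction n with
  | zero => rfl
  | succ n ih => rw [dn, List.map_cons, List.sum_cons, ih, sum_range_succ, add_comm]

variable {z0 z1 z2 : ℕ}

/-- The record of the class with index `i` and word `w`. -/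
noncomputable def rc (z0 z1 z2 i w : ℕ) : Rc :=
  ⟨i, kap (fda w) (fdb w) (fdt w), Bd.code (fda w) (fdb w) (fdt w),
    cl3 z0 z1 z2 (fda w) (fdb w) (fdt w) (fiv w),
    Nat.land (cl3 z0 z1 z2 (fda w) (fdb w) (fdt w) (fiv w))
      (Nat.land (oo z0 (fda w) (fdb w) (fdt w)) z0),
    Nat.land (cl3 z0 z1 z2 (fda w) (fdb w) (fdt w) (fiv w))
      (Nat.land (oo z1 (fda w) (fdb w) (fdt w)) z1),
    Nat.land (cl3 z0 z1 z2 (fda w) (fdb w) (fdt w) (fiv w))
      (Nat.land (oo z2 (fda w) (fdb w) (fdt w)) z2)⟩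

theorem mkR_eq {α : Type} (i w : ℕ) (f : Rc → α) :
    mkR z0 z1 z2 i w f = f (rc z0 z1 z2 i w) := by
  simp only [mkR, frc_eq]
  rfl

theorem disj_spec {r x : Rc} {l : List Rc} (h : disj r l = true) (hx : x ∈ l) (e : r.c = x.c) :
    Nat.beq (Nat.land r.X x.X) 0 = true := by
  induction l with
  | nil => exact absurd hx List.not_mem_nil
  | cons a l ih =>
    obtain ⟨h1, h2⟩ := Bd.band_iff.1 h
    rcases List.mem_cons.1 hx with rfl | hx
    · exact imp_iff.1 h1 (Nat.beq_eq.mpr e)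
    · exact ih h2 hx

theorem mkL_spec {Cw n : ℕ} {R : ℕ → Rc} (hR : ∀ a, R a = rc z0 z1 z2 a (lane 28 Cw a))
    {k : List Rc → ℕ → Bool} (h : mkL z0 z1 z2 Cw n k = true) :
    ∃ Dm, k (dn R n) Dm = true ∧ ∀ a < n, Dm.testBit (R a).c ∧ okR z0 (lane 28 Cw a) (R a) ∧
      ∀ b < a, (R a).c = (R b).c → Nat.beq (Nat.land (R a).X (R b).X) 0 = true := by
  induction n generalizing k with
  | zero => exact ⟨0, h, fun a x => absurd x a.not_lt_zero⟩
  | succ n ih =>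
    obtain ⟨Dm, e, H⟩ := ih h
    rw [frc_eq, mkR_eq, ← hR, frc_eq] at e
    obtain ⟨e1, e2⟩ := Bd.band_iff.1 e
    obtain ⟨e1, e3⟩ := Bd.band_iff.1 e1
    refine ⟨_, e2, fun a x => ?_⟩
    rcases Nat.lt_succ_iff_lt_or_eq.1 x with x | rfl
    · exact ⟨bit_or.2 (Or.inl (H a x).1), (H a x).2⟩
    · exact ⟨bit_or.2 (Or.inr (bit_one.2 rfl)), e1, fun b y c =>
        disj_spec (imp_iff.1 e3 (bit_iff.2 (c ▸ (H b y).1))) (mem_dn.2 ⟨b, y, rfl⟩) c⟩

/-- A class at the level `j`. -/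
noncomputable def bc (j : ℕ) (r : Rc) : Bc := ⟨r.i, r.k, lv j r, ush (lv j r) r.c⟩

theorem toB_eq (j : ℕ) (l : List Rc) (k : List Bc → Bool) : toB j l k = k (l.map (bc j)) := by
  induction l generalizing k with
  | nil => rfl
  | cons a l ih =>
    refine (ih _).trans ?_
    simp only [frc_eq]
    rfl

variable {F : Type u} [Field F] {y : ℕ → F}

theorem selB_spec {M : ℕ} {l : List Bc} {k : List Bc → Bool} (h : selB M l k = true) :
    ∃ lb, k lb = true ∧ (∀ B ∈ lb, B ∈ l) ∧ ∀ f : Bc → F,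
      (∀ B ∈ l, Nat.beq (Nat.land B.U M) 0 = true → f B = 0) → (lb.map f).sum = (l.map f).sum := by
  induction l generalizing k with
  | nil => exact ⟨[], h, fun _ x => x, fun _ _ => rfl⟩
  | cons a l ih =>
    obtain ⟨lb, e, s, H⟩ := ih h
    cases c : Nat.beq (Nat.land a.U M) 0
    · rw [c] at e
      refine ⟨a :: lb, e, fun B x => (List.mem_cons.1 x).elim (fun x => x ▸ List.mem_cons_self)
        fun x => List.mem_cons_of_mem _ (s B x), fun f hf => ?_⟩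
      rw [List.map_cons, List.map_cons, List.sum_cons, List.sum_cons,
        H f fun B x => hf B (List.mem_cons_of_mem _ x)]
    · rw [c] at e
      refine ⟨lb, e, fun B x => List.mem_cons_of_mem _ (s B x), fun f hf => ?_⟩
      rw [List.map_cons, List.sum_cons, hf a List.mem_cons_self c, zero_add,
        H f fun B x => hf B (List.mem_cons_of_mem _ x)]

theorem inner_spec {Nb kk XS a : ℕ} {l : List Bc} {r : Row} {k : Row → Bool} {cf : Bc → ℤ}
    (h0 : ∀ B ∈ l, B.k ≠ kk → cf B = 0)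
    (h1 : ∀ B ∈ l, B.k = kk → posP Nb XS B.U + posQ Nb XS B.U ≤ 99 →
      cf B = (posP Nb XS B.U : ℤ) - (posQ Nb XS B.U : ℤ))
    (h : inner Nb kk XS a l r k = true) :
    ∃ r', k r' = true ∧ ev y r' = ev y r + (l.map fun B => (cf B : F) * (y a * y B.i)).sum := by
  induction l generalizing r with
  | nil => exact ⟨r, h, (add_zero _).symm⟩
  | cons B l ih =>
    have ih := fun r => @ih r (fun B x => h0 B (List.mem_cons_of_mem _ x))
      fun B x => h1 B (List.mem_cons_of_mem _ x)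
    have h' : (Bool.rec (inner Nb kk XS a l r k) (Q.frc (posP Nb XS B.U) fun P =>
        Q.frc (posQ Nb XS B.U) fun P' => Bd.band (Nat.ble (Nat.add P P') 99)
          (frcR (addT (Int.subNatNat P P') a B.i r) fun r' => inner Nb kk XS a l r' k))
        (Nat.beq B.k kk) : Bool) = true := h
    rw [List.map_cons, List.sum_cons]
    cases c : Nat.beq B.k kk
    · rw [c] at h'
      rw [h0 B List.mem_cons_self (Nat.ne_of_beq_eq_false c), Int.cast_zero, zero_mul, zero_add]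
      exact ih r h'
    · rw [c, frc_eq, frc_eq, frcR_eq] at h'
      obtain ⟨b1, b2⟩ := Bd.band_iff.1 h'
      obtain ⟨r', e, v⟩ := ih _ b2
      refine ⟨r', e, ?_⟩
      rw [v, ev_addT, h1 B List.mem_cons_self (Nat.eq_of_beq_eq_true c) (Nat.le_of_ble_eq_true b1),
        Int.subNatNat_eq_coe]
      ring

theorem quad_spec {Nb cN kN M : ℕ} {lb l : List Bc} {k : Row → Bool} {cf : Bc → Bc → ℤ}
    (hz : ∀ A ∈ l, Nat.beq (Nat.land A.X M) 0 = true → ∀ B ∈ lb, cf A B = 0)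
    (h0 : ∀ A ∈ l, ∀ B ∈ lb, B.k ≠ kN - A.k → cf A B = 0)
    (h1 : ∀ A ∈ l, ∀ B ∈ lb, B.k = kN - A.k →
      posP Nb (shf A.X cN) B.U + posQ Nb (shf A.X cN) B.U ≤ 99 →
      cf A B = (posP Nb (shf A.X cN) B.U : ℤ) - (posQ Nb (shf A.X cN) B.U : ℤ))
    (h : quad Nb cN kN M lb l k = true) :
    ∃ r, k r = true ∧
      ev y r = (l.map fun A => (lb.map fun B => (cf A B : F) * (y A.i * y B.i)).sum).sum := by
  induction l generalizing k with
  | nil => exact ⟨[], h, rfl⟩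
  | cons A l ih =>
    obtain ⟨r, e, v⟩ := ih (fun A x => hz A (List.mem_cons_of_mem _ x))
      (fun A x => h0 A (List.mem_cons_of_mem _ x)) (fun A x => h1 A (List.mem_cons_of_mem _ x)) h
    rw [List.map_cons, List.sum_cons, ← v]
    cases c : Nat.beq (Nat.land A.X M) 0
    · rw [c, frc_eq] at e
      obtain ⟨r', e', v'⟩ := inner_spec (y := y) (h0 A List.mem_cons_self) (h1 A List.mem_cons_self) e
      exact ⟨r', e', by rw [v', add_comm]⟩
    · rw [c] at e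
      refine ⟨r, e, ?_⟩
      rw [List.sum_eq_zero, zero_add]
      intro x hx
      obtain ⟨B, hB, rfl⟩ := List.mem_map.1 hx
      rw [hz A List.mem_cons_self c B hB, Int.cast_zero, zero_mul]

theorem nosup_of {N cN X U : ℕ} (h : Nat.beq (Nat.land X (Bd.sm (ush N cN))) 0 = true ∨
    Nat.beq (Nat.land U (sp N)) 0 = true) : nosup N (shf X cN) U := by
  have e : ∀ i k, tb N (shf X cN) U (ee i) (ee k) = 0 := fun i k => by
    by_contra c
    obtain ⟨p, hp⟩ := Nat.exists_testBit_of_ne_zero c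
    obtain ⟨h1, h3⟩ := bit_and.1 hp
    obtain ⟨h1, h2⟩ := bit_and.1 h1
    obtain ⟨l2, h2⟩ := bit_shl.1 h2
    obtain ⟨l2', h2⟩ := bit_shf.1 h2
    rcases h with h | h
    · exact land_zero h h2 (bit_sm.2 ⟨i, (bit_ush' (by omega)).2 h1⟩)
    · exact land_zero h (bit_shr.1 h3) (bit_sp.2 ⟨k, p, rfl, h1⟩)
  have e1 : tb N _ _ 1152 1 = 0 := e 0 2
  have e2 : tb N _ _ 48 1152 = 0 := e 1 0
  have e3 : tb N _ _ 1 48 = 0 := e 2 1
  have e4 : tb N _ _ 1152 48 = 0 := e 0 1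
  have e5 : tb N _ _ 48 1 = 0 := e 1 2
  have e6 : tb N _ _ 1 1152 = 0 := e 2 0
  rw [nosup, e1, e2, e3, e4, e5, e6]
  rfl

theorem kap_match {na nb nt aa ab at' ba bb bt : ℕ} (h1 : na ≤ 15 ∧ nb ≤ 22 ∧ nt ≤ 46)
    (h2 : ab ≤ 22 ∧ at' ≤ 46) (h3 : bb ≤ 22 ∧ bt ≤ 46) (h4 : 676120 ≤ key ba bb bt) :
    kap ba bb bt = Nat.sub (kap 20 32 68) (kap na nb nt) - kap aa ab at' ↔
      na + aa + ba = 20 ∧ nb + ab + bb = 32 ∧ nt + at' + bt = 68 := by
  simp only [kap, key, Nat.add_eq, Nat.mul_eq, Nat.sub_eq] at h4 ⊢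
  omega

theorem add_lt {P Q : ℕ} (h : P + Q ≤ 99) : P < 100 ∧ Q < 100 := by omega

/-- The record `B` describes the active part of the class `X` with index `a`. -/
structure Rec (g : ℕ → ℕ → ℕ) (z a w : ℕ) (X : Pr) (B : Bc) : Prop where
  i : B.i = a
  k : B.k = kap (fda w) (fdb w) (fdt w)
  U : B.U = ush B.X (Bd.code (fda w) (fdb w) (fdt w))
  act : Act z (fda w) (fdb w) (fdt w) B.X
  key : 676120 ≤ key (fda w) (fdb w) (fdt w)
  iff : ∀ u v, ¬ ins g u → ins g v → (ap X u v ↔ ap (PB (fda w) (fdb w) (fdt w) B.X) u v)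

theorem mkQ_spec {g : ℕ → ℕ → ℕ} {z n : ℕ} (hz : IsB g z) (hb : Bdd g) (ha : Anti g)
    {W : ℕ → ℕ} {X : ℕ → Pr} {B : ℕ → Bc} (hB : ∀ a < n, Rec g z a (W a) (X a) (B a))
    (hy : ∀ (N : Pr) (γ : ℕ), Links g (Neg N) → (∀ u v, ap N u v → ky v + γ + key 1 1 1 = ky u) →
      ∑ a ∈ range n, ∑ b ∈ range n, (coef g N (X a) (X b) : F) * (y a * y b) = 0)
    {w : ℕ} {k : Row → Bool} (h : mkQ z w (dn B n) k = true) : ∃ r, k r = true ∧ ev y r = 0 := by
  simp only [mkQ, frc_eq] at h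
  obtain ⟨h1, h⟩ := Bd.band_iff.1 h
  simp only [Bd.band_iff, Nat.ble_eq, sub_iff, Nat.add_eq, Nat.mul_eq] at h1
  obtain ⟨⟨t1, t2⟩, t3, hs⟩ := h1
  have t0 : fda w ≤ 15 := Nat.and_le_right
  have lk := cls_links hz hb ha t2 t1 hs.right
  generalize cls z (oo z (fda w) (fdb w) (fdt w)) (fiv w) = Nb at h hs lk
  generalize fda w = na at *
  generalize fdb w = nb at *
  generalize fdt w = nt at *
  have hN : Act z na nb nt Nb := ⟨t2, t1, hs⟩
  have H := hy _ (626710 - key na nb nt) lk fun u v x => by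
    have := (ap_PB.1 x).1.ky
    unfold key at *
    omega
  obtain ⟨cf, hcf⟩ : ∃ cf : ℕ → ℕ → ℤ, ∀ a b, cf a b = coef g (PB na nb nt Nb) (X a) (X b) :=
    ⟨_, fun _ _ => rfl⟩
  simp only [← hcf] at H
  have c : ∀ a < n, ∀ b < n, cf (B a).i (B b).i = coef g (PB na nb nt Nb)
      (PB (fda (W a)) (fdb (W a)) (fdt (W a)) (B a).X)
      (PB (fda (W b)) (fdb (W b)) (fdt (W b)) (B b).X) := fun a x b y => by
    rw [(hB a x).i, (hB b y).i, hcf, coef_congr (hB a x).iff (hB b y).iff]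
  have m : ∀ a < n, ∀ b < n, ((B b).k = Nat.sub (kap 20 32 68) (kap na nb nt) - (B a).k ↔
      na + fda (W a) + fda (W b) = 20 ∧ nb + fdb (W a) + fdb (W b) = 32 ∧
        nt + fdt (W a) + fdt (W b) = 68) := fun a x b y => by
    rw [(hB a x).k, (hB b y).k]
    exact kap_match ⟨t0, t2, t1⟩ ⟨(hB a x).act.b, (hB a x).act.t⟩ ⟨(hB b y).act.b, (hB b y).act.t⟩
      (hB b y).key
  have s : ∀ a < n, ∀ b < n, nosup Nb (shf (B a).X (Bd.code na nb nt)) (B b).U →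
      cf (B a).i (B b).i = 0 := fun a x b y e => by
    rw [c a x b y]
    exact coef_nosup hz hb hN (hB a x).act (hB b y).act ((hB b y).U ▸ e)
  obtain ⟨lb, e, s1, s2⟩ := selB_spec (F := F) h
  refine (quad_spec (y := y) (cf := fun A B => cf A.i B.i) (fun A x q B' x' => ?_)
    (fun A x B' x' q => ?_) (fun A x B' x' q l => ?_) e).imp fun r v => ⟨v.1, ?_⟩
  · obtain ⟨a, p, rfl⟩ := mem_dn.1 x
    obtain ⟨b, p', rfl⟩ := mem_dn.1 (s1 _ x')
    exact s a p b p' (nosup_of (Or.inl q))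
  · obtain ⟨a, p, rfl⟩ := mem_dn.1 x
    obtain ⟨b, p', rfl⟩ := mem_dn.1 (s1 _ x')
    by_contra d
    exact q ((m a p b p').2 (coef_ne (c a p b p' ▸ d)))
  · obtain ⟨a, p, rfl⟩ := mem_dn.1 x
    obtain ⟨b, p', rfl⟩ := mem_dn.1 (s1 _ x')
    rw [(hB b p').U] at l ⊢
    exact (c a p b p').trans (coef_eq hz hb hN (hB a p).act (hB b p').act ((m a p b p').1 q)
      (add_lt l).1 (add_lt l).2)
  · rw [v.2, sum_dn, ← H]
    refine sum_congr rfl fun a x => ?_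
    rw [s2, sum_dn]
    · exact sum_congr rfl fun b y => by rw [(hB a (mem_range.1 x)).i, (hB b (mem_range.1 y)).i]
    · intro B' x' q
      obtain ⟨b, y, rfl⟩ := mem_dn.1 x'
      rw [s a (mem_range.1 x) b y (nosup_of (Or.inr q)), Int.cast_zero, zero_mul]

theorem mkS_spec {Rw n : ℕ} {l0 l1 l2 : List Bc}
    (h0 : ∀ w k, mkQ z0 w l0 k = true → ∃ r, k r = true ∧ ev y r = 0)
    (h1 : ∀ w k, mkQ z1 w l1 k = true → ∃ r, k r = true ∧ ev y r = 0)
    (h2 : ∀ w k, mkQ z2 w l2 k = true → ∃ r, k r = true ∧ ev y r = 0)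
    {k : List Row → Bool} (h : mkS z0 z1 z2 Rw l0 l1 l2 n k = true) :
    ∃ s, k s = true ∧ ∀ r ∈ s, ev y r = 0 := by
  induction n generalizing k with
  | zero => exact ⟨[], h, fun _ x => absurd x List.not_mem_nil⟩
  | succ n ih =>
    obtain ⟨s, e, H⟩ := ih h
    rw [frc_eq] at e
    have : ∃ r, k (r :: s) = true ∧ ev y r = 0 := by
      generalize fe (lane 30 Rw n) = j at e
      rcases j with _ | _ | j
      exacts [h0 _ _ e, h1 _ _ e, h2 _ _ e]
    obtain ⟨r, a, b⟩ := this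
    exact ⟨_, a, fun x hx => (List.mem_cons.1 hx).elim (fun q => q ▸ b) (H x)⟩

theorem okR_spec {w : ℕ} {r : Rc} (h : okR z0 w r = true) : fdb w ≤ 22 ∧ fdt w ≤ 46 ∧
    676120 ≤ key (fda w) (fdb w) (fdt w) ∧ Sub r.X z0 ∧
    (r.X0.testBit (fiv w) ∨ r.X1.testBit (fiv w) ∨ r.X2.testBit (fiv w)) := by
  simp only [okR, Bd.band_iff, Nat.ble_eq, sub_iff, Nat.add_eq, Nat.mul_eq, bit_iff, bit_or,
    or_assoc] at h
  obtain ⟨⟨a, b⟩, c, d, e⟩ := h
  exact ⟨b, a, by unfold key; omega, d, e⟩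

variable {g : Fin 3 → ℕ → ℕ → ℕ}

theorem lv_rc (a w : ℕ) (j : Fin 3) : lv j (rc z0 z1 z2 a w) =
    Nat.land (cl3 z0 z1 z2 (fda w) (fdb w) (fdt w) (fiv w))
      (Nat.land (oo (![z0, z1, z2] j) (fda w) (fdb w) (fdt w)) (![z0, z1, z2] j)) := by
  fin_cases j <;> rfl

theorem rec_rc (L : Lv3 g z0 z1 z2) {a w : ℕ} (h : okR z0 w (rc z0 z1 z2 a w) = true) (j : Fin 3) :
    Rec (g j) (![z0, z1, z2] j) a w
      (PB (fda w) (fdb w) (fdt w) (cl3 z0 z1 z2 (fda w) (fdb w) (fdt w) (fiv w)))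
      (bc j (rc z0 z1 z2 a w)) := by
  obtain ⟨b, t, k, -⟩ := okR_spec h
  have e : (bc j (rc z0 z1 z2 a w)).X = _ := lv_rc a w j
  refine ⟨rfl, ?_, ?_, ⟨b, t, fun _ x => ?_⟩, k, fun u v hu hv => ?_⟩
  · rw [bc, rc]
  · rw [bc, rc]
  · rw [e] at x
    exact (bit_and.1 x).2
  have := (L.bdd j).lt hv
  rw [e, ap_PB' (L.bdd j) hv, ap_PB' (L.bdd j) hv, bit_and, bit_and]
  exact and_congr_right fun d => (and_iff_left ⟨(oo_pos (L.isb j) (L.bdd j) b t (by omega)).2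
    ⟨u, d, hu⟩, (L.isb j).pos hv⟩).symm

theorem fin3_sound {n need s : ℕ} (L : Lv3 g z0 z1 z2) (h : fin3 z0 z1 z2 n need s = true) :
    TGain.{u} g n need := by
  obtain ⟨nc, s, h⟩ := rd_ex h
  obtain ⟨Cw, s, h⟩ := rd_ex h
  obtain ⟨nr, s, h⟩ := rd_ex h
  obtain ⟨Rw, s, h⟩ := rd_ex h
  obtain ⟨Dm, h, H⟩ := mkL_spec (fun _ => rfl) h
  rw [toB_eq, toB_eq, toB_eq, map_dn, map_dn, map_dn] at h
  obtain ⟨W, hW⟩ : ∃ W : ℕ → ℕ, ∀ a, lane 28 Cw a = W a := ⟨_, fun _ => rfl⟩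
  simp only [hW] at h H
  have R := fun j a x => rec_rc L (H a x).2.1 j
  refine ⟨range nc, fun a => PB (fda (W a)) (fdb (W a)) (fdt (W a))
      (cl3 z0 z1 z2 (fda (W a)) (fdb (W a)) (fdt (W a)) (fiv (W a))),
    fun a => key (fda (W a)) (fdb (W a)) (fdt (W a)) - 676119,
    ⟨fun a x => ?_, fun a x => ?_, fun a x => ?_⟩, fun K F _ _ _ hK y hy => ?_⟩
  · obtain ⟨b, t, -, q, -⟩ := okR_spec (H a (mem_range.1 x)).2.1
    exact cls3_links L b t q
  · obtain ⟨-, -, k, -⟩ := okR_spec (H a (mem_range.1 x)).2.1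
    refine ⟨by omega, fun u v q => ?_⟩
    have := (ap_PB.1 q).1.ky
    omega
  · have x := mem_range.1 x
    obtain ⟨b, t, -, q, sd⟩ := okR_spec (H a x).2.1
    obtain ⟨j, sd⟩ : ∃ j : Fin 3, (bc j (rc z0 z1 z2 a (W a))).X.testBit (fiv (W a)) := by
      rcases sd with sd | sd | sd
      exacts [⟨0, sd⟩, ⟨1, sd⟩, ⟨2, sd⟩]
    obtain ⟨u, v, e, iv, d, nu⟩ := (R j a x).act.ex (L.isb j) (L.bdd j) sd
    have bv := (L.bdd j).lt iv
    have p := ((R j a x).iff u v nu iv).2 ((ap_PB' (L.bdd j) iv).2 ⟨d, e ▸ sd⟩)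
    refine ⟨u, v, p, ⟨j, nu, iv⟩, fun c hc ne o => ?_, fun G hG o =>
      cls3_conn L b t q hG (e ▸ At.of d (by omega) (by omega) o)⟩
    obtain ⟨d', -, -, o⟩ := ap_PB.1 o
    have ec : Bd.code (fda (W a)) (fdb (W a)) (fdt (W a)) =
        Bd.code (fda (W c)) (fdb (W c)) (fdt (W c)) :=
      Nat.add_left_cancel (d.pos.trans d'.pos.symm)
    rcases lt_or_gt_of_ne ne with l | l
    · exact land_zero ((H a x).2.2 c l ec) (ap_PB.1 p).2.2.2 o
    · exact land_zero ((H c (mem_range.1 hc)).2.2 a l ec.symm) o (ap_PB.1 p).2.2.2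
  · obtain ⟨rows, e, v⟩ := mkS_spec (y := y)
      (fun _ _ => mkQ_spec (L.isb 0) (L.bdd 0) (L.anti 0) (R 0) (hy.2 0))
      (fun _ _ => mkQ_spec (L.isb 1) (L.bdd 1) (L.anti 1) (R 1) (hy.2 1))
      (fun _ _ => mkQ_spec (L.isb 2) (L.bdd 2) (L.anti 2) (R 2) (hy.2 2)) h
    refine runStmt K n hK _ _ _ _ _ _ (range nc) (fun i => ?_) e F y hy.1 v
      fun _ x => absurd x List.not_mem_nil
    rw [bit_iff, Nat.shiftLeft_eq', Nat.one_shiftLeft, Nat.sub_eq, Nat.testBit_two_pow_sub_one,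
      decide_eq_true_eq, mem_range]

end Pool.Agent.Lib.MP_ed43e6_ag.T
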