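import Pool.Agent.Lib.MP_ed43e6_ag.Q.Base

/-! A checker for tree shaped certificates bounding the solutions of integer quadrics. -/

namespace Pool.Agent.Lib.MP_ed43e6_ag.T

open Q

noncomputable section

/-- The term `c * y a * y b`. -/
structure Tm where
  c : Int
  a : Nat
  b : Nat

abbrev Row := List Tm

/-! ### Forcing evaluation -/

def frcI {α : Type} (c : Int) (k : Int → α) : α :=
  Int.rec (fun n => frc n fun m => k (Int.ofNat m)) (fun n => frc n fun m => k (Int.negSucc m)) c

def frcR {α : Type} (r : Row) : (Row → α) → α :=
  List.rec (fun k => k []) (fun t _ ih k => frcI t.c fun c => frc t.a fun a => frc t.b fun b =>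
    ih fun tl => k (⟨c, a, b⟩ :: tl)) r

def frcS {α : Type} (s : List Row) : (List Row → α) → α :=
  List.rec (fun k => k []) (fun r _ ih k => frcR r fun r' => ih fun tl => k (r' :: tl)) s

def frcL {α : Type} (l : List (Int × Nat)) : (List (Int × Nat) → α) → α :=
  List.rec (fun k => k []) (fun p _ ih k => frcI p.1 fun c => frc p.2 fun a =>
    ih fun tl => k ((c, a) :: tl)) l

def frcU {α : Type} (l : List Nat) : (List Nat → α) → α :=
  List.rec (fun k => k []) (fun p _ ih k => frc p fun a => ih fun tl => k (a :: tl)) l

/-! ### Operations on rows -/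

def isZ (c : Int) : Bool := Nat.beq (Int.natAbs c) 0

/-- Add `c * y a * y b` to a row, merging with an equal monomial. -/
def ins0 (c : Int) (a b : Nat) (r : Row) : Row :=
  List.rec [⟨c, a, b⟩] (fun x tl ih => cond (and (Nat.beq x.a a) (Nat.beq x.b b))
    (cond (isZ (Int.add x.c c)) tl (⟨Int.add x.c c, a, b⟩ :: tl)) (x :: ih)) r

def addT (c : Int) (a b : Nat) (r : Row) : Row :=
  cond (isZ c) r (cond (Nat.ble a b) (ins0 c a b r) (ins0 c b a r))

/-- Add `c * l * y b`. -/
def addL (c : Int) (l : List (Int × Nat)) (b : Nat) (r : Row) : Row :=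
  List.rec r (fun p _ ih => addT (Int.mul c p.1) p.2 b ih) l

/-- Add `c * l * l`. -/
def addQ (c : Int) (l : List (Int × Nat)) (r : Row) : Row :=
  List.rec r (fun p _ ih => addL (Int.mul c p.1) l p.2 ih) l

def hasT (z : Nat) (t : Tm) : Bool := or (Nat.beq t.a z) (Nat.beq t.b z)

def has (z : Nat) (r : Row) : Bool := List.rec false (fun t _ ih => or (hasT z t) ih) r

def drop (z : Nat) (r : Row) : Row := List.rec [] (fun t _ ih => cond (hasT z t) ih (t :: ih)) r

/-- Replace the variable `z` by the linear form `l`. -/
def sub (z : Nat) (l : List (Int × Nat)) (r : Row) : Row :=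
  List.rec (drop z r) (fun t _ ih => cond (Nat.beq t.a z)
    (cond (Nat.beq t.b z) (addQ t.c l ih) (addL t.c l t.b ih))
    (cond (Nat.beq t.b z) (addL t.c l t.a ih) ih)) r

/-- Substitute in all rows and continue. -/
def subS {α : Type} (z : Nat) (l : List (Int × Nat)) (s : List Row) : (List Row → α) → α :=
  List.rec (fun k => k []) (fun r _ ih k => cond (has z r)
    (frcR (sub z l r) fun r' => ih fun tl => k (r' :: tl)) (ih fun tl => k (r :: tl))) s

def scale (c : Int) (r : Row) : Row := List.rec [] (fun t _ ih => ⟨Int.mul c t.c, t.a, t.b⟩ :: ih) r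

/-- `c * r + d * r'`. -/
def comb (c : Int) (r : Row) (d : Int) (r' : Row) : Row :=
  List.rec (scale c r) (fun t _ ih => addT (Int.mul d t.c) t.a t.b ih) r'

def nth (s : List Row) : Nat → Row :=
  List.rec (fun _ => []) (fun r _ ih i => Nat.rec r (fun j _ => ih j) i) s

def put (x : Row) (s : List Row) : Nat → List Row :=
  List.rec (fun _ => []) (fun r tl ih i => Nat.rec (x :: tl) (fun j _ => r :: ih j) i) s

/-- Lane `i` of width `w`. -/
def lane (w e i : Nat) : Nat := Nat.mod (Nat.shiftRight e (Nat.mul w i)) (Nat.pow 2 w)

def wtT (w e : Nat) (t : Tm) : Nat := Nat.add (lane w e t.a) (lane w e t.b)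

/-- Continue with the largest weight and the terms of that weight. -/
def top {α : Type} (w e : Nat) (r : Row) : (Nat → Row → α) → α :=
  List.rec (fun k => k 0 []) (fun t _ ih k => ih fun m tl => frc (wtT w e t) fun x =>
    cond (Nat.beq x m) (k m (t :: tl)) (cond (Nat.ble x m) (k m tl) (k x [t]))) r

def topS {α : Type} (w e : Nat) (s : List Row) : (List Row → α) → α :=
  List.rec (fun k => k []) (fun r _ ih k => top w e r fun _ r' => ih fun tl => k (r' :: tl)) s

def mem (a : Nat) (U : List Nat) : Bool := List.rec false (fun x _ ih => or (Nat.beq x a) ih) U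

def keep (w e : Nat) (U : List Nat) : List Nat :=
  List.rec [] (fun x _ ih => cond (Nat.beq (lane w e x) 0) (x :: ih) ih) U

def del (z : Nat) (U : List Nat) : List Nat :=
  List.rec [] (fun x _ ih => cond (Nat.beq x z) ih (x :: ih)) U

def bit (V i : Nat) : Bool := Nat.beq (Nat.land (Nat.shiftRight V i) 1) 1

def clr (V i : Nat) : Nat := Nat.sub V (Nat.shiftLeft 1 i)

def okC (D : Nat) (c : Int) : Bool := and (Nat.ble 1 (Int.natAbs c)) (Nat.ble (Int.natAbs c) D)

/-- Use the top terms of the rows selected by the mask: each has to be a single monomial that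
kills a variable, or joins two unused variables, or contradicts `U`. -/
def leaf (D w e : Nat) (U : List Nat) (s : List Row) : Nat → Nat → Nat → Bool :=
  List.rec (fun _ _ need => Nat.beq need 0) (fun r _ ih mask V need =>
    frc (Nat.shiftRight mask 1) fun mask' => cond (Nat.beq (Nat.land mask 1) 0) (ih mask' V need)
      (top w e r fun _ r' => List.rec false (fun t tl _ => List.rec
        (and (okC D t.c) (cond (mem t.a U)
          (or (mem t.b U) (and (bit V t.b) (frc (clr V t.b) fun V' => ih mask' V' (Nat.pred need))))
          (cond (or (mem t.b U) (Nat.beq t.a t.b))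
            (and (bit V t.a) (frc (clr V t.a) fun V' => ih mask' V' (Nat.pred need)))
            (and (and (bit V t.a) (bit V t.b))
              (frc (clr (clr V t.a) t.b) fun V' => ih mask' V' (Nat.pred need))))))
        (fun _ _ _ => false) tl) r')) s

/-- Divide a row by `y u`, if every term contains it. -/
def quo (u : Nat) (r : Row) : List (Int × Nat) :=
  List.rec [] (fun t _ ih => (t.c, cond (Nat.beq t.a u) t.b t.a) :: ih) r

def allT (u : Nat) (r : Row) : Bool := List.rec true (fun t _ ih => and (hasT u t) ih) r

/-- The coefficient of `z`. -/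
def cof (z : Nat) (l : List (Int × Nat)) : Int :=
  List.rec 0 (fun p _ ih => cond (Nat.beq p.2 z) (Int.add p.1 ih) ih) l

/-- The other terms, multiplied by `c`. -/
def rest (z : Nat) (c : Int) (l : List (Int × Nat)) : List (Int × Nat) :=
  List.rec [] (fun p _ ih => cond (Nat.beq p.2 z) ih ((Int.mul c p.1, p.2) :: ih)) l

def isNil {α : Type} (l : List α) : Bool := List.rec true (fun _ _ _ => false) l

/-- Read `k` bits. -/
def rd {α : Type} (k s : Nat) (f : Nat → Nat → α) : α :=
  frc (Nat.mod s (Nat.pow 2 k)) fun x => frc (Nat.shiftRight s k) fun s' => f x s'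

def sgn (x : Nat) : Int := Int.subNatNat x 8

/-- The interpreter. -/
def run (D : Nat) (fuel : Nat) : Nat → List Row → List Nat → Nat → Nat → Bool :=
  Nat.rec (fun _ _ _ _ _ => false) (fun _ go s rows U V need =>
    or (Nat.beq need 0) (rd 3 s fun op s =>
      cond (Nat.beq op 0)
        (rd 5 s fun w s => rd 8 s fun m s => rd m s fun mask e =>
          frcU (keep w e U) fun U' => leaf D w e U' rows mask V need)
      (cond (Nat.beq op 1)
        (rd 8 s fun i s => rd 8 s fun j s => rd 4 s fun c s => rd 4 s fun d s =>
          frcR (comb (sgn c) (nth rows i) (sgn d) (nth rows j)) fun r =>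
            go s (put r rows i) U V need)
      (cond (Nat.beq op 2)
        (rd 8 s fun z s => rd 8 s fun j s => rd 4 s fun c s =>
          and (and (bit V z) (not (Nat.beq z j)))
            (frcI (sgn c) fun c' => subS z [(1, z), (c', j)] rows fun rows' =>
              frcU (del z U) fun U' => go s rows' U' V need))
      (cond (Nat.beq op 3)
        (rd 5 s fun w s => rd 12 s fun m s => rd m s fun e s =>
          frcU (keep w e U) fun U' => topS w e rows fun rows' => go s rows' U' V need)
      (cond (Nat.beq op 4)
        (rd 8 s fun i s => rd 8 s fun u s => rd 8 s fun z s =>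
          and (and (and (mem u U) (bit V z)) (allT u (nth rows i)))
            (frcL (quo u (nth rows i)) fun l => frcI (cof z l) fun c =>
              frcL (rest z (Int.neg c) l) fun l' =>
                and (cond (isNil l') (okC D c) (Nat.beq (Int.natAbs c) 1))
                  (subS z l' rows fun rows' => frcU (del z U) fun U' =>
                    frc (clr V z) fun V' => go s rows' U' V' (Nat.pred need))))
      (cond (Nat.beq op 5)
        (rd 8 s fun i s => List.rec false (fun t tl _ =>
          and (and (and (isNil tl) (okC D t.c)) (and (Nat.beq t.a t.b) (bit V t.a)))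
            (subS t.a [] rows fun rows' => frcU (del t.a U) fun U' =>
              frc (clr V t.a) fun V' => go s rows' U' V' (Nat.pred need))) (nth rows i))
        (rd 8 s fun z s => rd 20 s fun m s => rd m s fun s0 s1 =>
          and (bit V z) (and (go s1 rows (z :: U) V need)
            (subS z [] rows fun rows' => frcU (del z U) fun U' =>
              frc (clr V z) fun V' => go s0 rows' U' V' (Nat.pred need))))))))))) fuel

end

end Pool.Agent.Lib.MP_ed43e6_ag.T
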