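import Pool.Agent.Lib.MP_ed43e6_ag.T.Ker
import Pool.Agent.Lib.MP_ed43e6_ag.Q.L1

/-! The checker for a single flag: erase superfluous roots, compute the classes and the exact
quadrics, and run the tree certificate. -/

namespace Pool.Agent.Lib.MP_ed43e6_ag.T

open Q.Bd
open Q (frc)

noncomputable section

/-- The union over the three levels of the links in the direction `e`. -/
def lk3 (z0 z1 z2 O0 O1 O2 e : Nat) : Nat := Nat.lor (Nat.lor (lk z0 O0 e) (lk z1 O1 e)) (lk z2 O2 e)

/-- The class of the bit `i` for the links of all three levels. -/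
def cls3 (z0 z1 z2 O0 O1 O2 i : Nat) : Nat :=
  fill (lk3 z0 z1 z2 O0 O1 O2 1152) (lk3 z0 z1 z2 O0 O1 O2 48) (lk3 z0 z1 z2 O0 O1 O2 1) 40
    (Nat.shiftLeft 1 i)

def kap (x y w : Nat) : Nat := Nat.add (Nat.add (Nat.mul 65536 x) (Nat.mul 256 y)) w

/-- A listed class: index, two codes of the difference, the board and its active parts. -/
structure Rc where
  i : Nat
  k : Nat
  c : Nat
  X : Nat
  X0 : Nat
  X1 : Nat
  X2 : Nat

def mkR {α : Type} (z0 z1 z2 i w : Nat) (f : Rc → α) : α :=
  frc (fda w) fun da => frc (fdb w) fun db => frc (fdt w) fun dt =>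
    frc (oo z0 da db dt) fun O0 => frc (oo z1 da db dt) fun O1 => frc (oo z2 da db dt) fun O2 =>
      frc (cls3 z0 z1 z2 O0 O1 O2 (fiv w)) fun X => frc (kap da db dt) fun k =>
        frc (Q.Bd.code da db dt) fun c => frc (Nat.land X (Nat.land O0 z0)) fun X0 =>
          frc (Nat.land X (Nat.land O1 z1)) fun X1 => frc (Nat.land X (Nat.land O2 z2)) fun X2 =>
            f ⟨i, k, c, X, X0, X1, X2⟩

def okR (z0 w : Nat) (r : Rc) : Bool :=
  band (band (Nat.ble (fdt w) 46) (Nat.ble (fdb w) 22))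
    (band (Nat.ble 676120 (Nat.add (Nat.add (Nat.mul 16384 (fda w)) (Nat.mul 16512 (fdb w)))
        (Nat.mul 16513 (fdt w))))
      (band (sub? r.X z0) (bit (Nat.lor (Nat.lor r.X0 r.X1) r.X2) (fiv w))))

def disj (r : Rc) (l : List Rc) : Bool :=
  List.rec true (fun x _ ih => band (Bool.rec true (Nat.beq (Nat.land r.X x.X) 0)
    (Nat.beq r.c x.c)) ih) l

/-- Build the list of the first `n` classes and the set of their codes. -/
def mkL (z0 z1 z2 Cw n : Nat) : (List Rc → Nat → Bool) → Bool :=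
  Nat.rec (fun k => k [] 0) (fun i ih k => ih fun tl Dm => frc (lane 28 Cw i) fun w =>
    mkR z0 z1 z2 i w fun r => band (band (okR z0 w r) (Bool.rec true (disj r tl) (bit Dm r.c)))
      (frc (Nat.lor Dm (Nat.shiftLeft 1 r.c)) fun Dm' => k (r :: tl) Dm')) n

def lv (j : Nat) (r : Rc) : Nat := Nat.rec r.X0 (fun j' _ => Nat.rec r.X1 (fun _ _ => r.X2) j') j

/-- A class at one level: index, code, targets and sources. -/
structure Bc where
  i : Nat
  k : Nat
  X : Nat
  U : Nat

def toB (j : Nat) (l : List Rc) : (List Bc → Bool) → Bool :=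
  List.rec (fun k => k []) (fun r _ ih k => ih fun tl => frc r.i fun i => frc r.k fun kk =>
    frc (lv j r) fun X => frc (ush X r.c) fun U => k (⟨i, kk, X, U⟩ :: tl)) l

/-- The classes with a source in `M`. -/
def selB (M : Nat) (l : List Bc) : (List Bc → Bool) → Bool :=
  List.rec (fun k => k []) (fun B _ ih k => ih fun tl =>
    Bool.rec (k (B :: tl)) (k tl) (Nat.beq (Nat.land B.U M) 0)) l

def inner (Nb kk XS a : Nat) (l : List Bc) : Row → (Row → Bool) → Bool :=
  List.rec (fun r k => k r) (fun B _ ih r k => Bool.rec (ih r k)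
    (frc (posP Nb XS B.U) fun P => frc (posQ Nb XS B.U) fun Q => band (Nat.ble (Nat.add P Q) 99)
      (frcR (addT (Int.subNatNat P Q) a B.i r) fun r' => ih r' k)) (Nat.beq B.k kk)) l

/-- The quadric of a dual class. Here `kN` is the sum of the codes of the two factors. -/
def quad (Nb cN kN M : Nat) (lb l : List Bc) : (Row → Bool) → Bool :=
  List.rec (fun k => k []) (fun A _ ih k => ih fun r =>
    Bool.rec (frc (Nat.sub kN A.k) fun kk => inner Nb kk (shf A.X cN) A.i lb r k) (k r)
      (Nat.beq (Nat.land A.X M) 0)) l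

def mkQ (z w : Nat) (l : List Bc) (k : Row → Bool) : Bool :=
  frc (fda w) fun da => frc (fdb w) fun db => frc (fdt w) fun dt =>
    frc (oo z da db dt) fun O => frc (cls z O (fiv w)) fun Nb => frc (Q.Bd.code da db dt) fun c =>
      band (band (band (Nat.ble dt 46) (Nat.ble db 22))
          (band (Nat.ble (Nat.add (Nat.add (Nat.mul 16384 da) (Nat.mul 16512 db))
            (Nat.mul 16513 dt)) 626710) (sub? Nb (Nat.land O z))))
        (frc (Nat.sub (kap 20 32 68) (kap da db dt)) fun kN => frc (sp Nb) fun MB =>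
          frc (sm (ush Nb c)) fun MA => selB MB l fun lb => quad Nb c kN MA lb l k)

/-- Build the first `n` quadrics, the last one first. -/
def mkS (z0 z1 z2 Rw : Nat) (l0 l1 l2 : List Bc) (n : Nat) : (List Row → Bool) → Bool :=
  Nat.rec (fun k => k []) (fun i ih k => ih fun tl => frc (lane 30 Rw i) fun w =>
    Nat.rec (mkQ z0 w l0 fun r => k (r :: tl)) (fun j _ =>
      Nat.rec (mkQ z1 w l1 fun r => k (r :: tl)) (fun _ _ => mkQ z2 w l2 fun r => k (r :: tl)) j)
      (fe w)) n

/-! Erasing roots. A pair is written with 24 bits. -/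

def ht (S H p q : Nat) : Nat := lane 12 H (Nat.add (Nat.mul S p) q)

def kyN (a b t : Nat) : Nat :=
  Nat.add (Nat.add (Nat.mul 16384 a) (Nat.mul 16512 b)) (Nat.mul 16513 t)

def f3 (x k : Nat) : Nat := Nat.land (Nat.shiftRight x k) 7
def f4 (x k : Nat) : Nat := Nat.land (Nat.shiftRight x k) 15
def f5 (x k : Nat) : Nat := Nat.land (Nat.shiftRight x k) 31

/-- Membership in the explicit root set; `i`, `j` are the indices of the two columns. -/
def inR (S N H Rm i0 i1 p q s a b t i j : Nat) : Bool :=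
  band (band (band (Nat.blt q S) (Nat.blt b S)) (band (Nat.blt i N) (Nat.blt j N)))
    (bor (band (band (Nat.beq (Nat.succ t) (lane 12 H j)) (Nat.ble (lane 12 H i) s))
        (Nat.blt (Nat.sub s (lane 12 H i)) (lane 12 Rm (Nat.add (Nat.mul N j) i))))
      (band (Nat.blt (kyN p q s) (kyN a b t))
        (bor (band (band (band (Nat.beq j i0) (Nat.beq t (lane 12 H j))) (Nat.beq s (lane 12 H i)))
            (band (bor (Nat.beq p 0) (Nat.blt s (lane 12 H (Nat.sub i S))))
              (bor (Nat.beq q 0) (Nat.blt s (lane 12 H (Nat.pred i))))))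
          (band (band (Nat.beq i i1) (Nat.beq (Nat.succ s) (lane 12 H i)))
            (Nat.beq (Nat.succ t) (lane 12 H j))))))

def inX (S N H Rm i0 i1 x : Nat) : Bool :=
  frc (f3 x 0) fun p => frc (f4 x 3) fun q => frc (f5 x 7) fun s =>
    frc (f3 x 12) fun a => frc (f4 x 15) fun b => frc (f5 x 19) fun t =>
      frc (Nat.add (Nat.mul S p) q) fun i => frc (Nat.add (Nat.mul S a) b) fun j =>
        inR S N H Rm i0 i1 p q s a b t i j

def dA (x : Nat) : Nat := Nat.sub (Nat.add (f3 x 12) 7) (f3 x 0)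
def dB (x : Nat) : Nat := Nat.sub (Nat.add (f4 x 15) 11) (f4 x 3)
def dT (x : Nat) : Nat := Nat.sub (Nat.add (f5 x 19) 23) (f5 x 7)
def tg (x : Nat) : Nat := Q.Bd.code (Nat.succ (f3 x 12)) (Nat.succ (f4 x 15)) (Nat.succ (f5 x 19))
def sml (x : Nat) : Bool := band (band (Nat.ble (f4 x 3) 11) (Nat.ble (f5 x 7) 23))
  (band (Nat.ble (f4 x 15) 10) (Nat.ble (f5 x 19) 22))

/-- The root `x` is dead, or linked to the later root `y`. -/
def era (S N H Rm i0 i1 z0 z1 z2 x y : Nat) : Bool :=
  band (band (inX S N H Rm i0 i1 x) (sml x))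
    (frc (dA x) fun da => frc (dB x) fun db => frc (dT x) fun dt =>
      frc (oo z0 da db dt) fun O0 => frc (oo z1 da db dt) fun O1 => frc (oo z2 da db dt) fun O2 =>
        frc (cls3 z0 z1 z2 O0 O1 O2 (tg x)) fun X => band (bit z0 (tg x))
          (cond (Nat.beq y 0) (not (sub? X z0))
            (band (band (band (Nat.blt x y) (inX S N H Rm i0 i1 y)) (band (sml y) (bit z0 (tg y))))
              (band (band (Nat.beq (dA y) da) (band (Nat.beq (dB y) db) (Nat.beq (dT y) dt)))
                (bit X (tg y))))))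

/-- The first `m` erasures are valid and sorted. -/
def eras (S N H Rm i0 i1 z0 z1 z2 E m : Nat) : Bool :=
  Q.Bd.allLt m fun i => frc (lane 24 E (Nat.mul 2 i)) fun x =>
    band (Nat.blt x (lane 24 E (Nat.add (Nat.mul 2 i) 2)))
      (frc (lane 24 E (Nat.succ (Nat.mul 2 i))) fun y => era S N H Rm i0 i1 z0 z1 z2 x y)

def fin3 (z0 z1 z2 n need s : Nat) : Bool :=
  rd 8 s fun nc s => rd (Nat.mul 28 nc) s fun Cw s => rd 8 s fun nr s =>
    rd (Nat.mul 30 nr) s fun Rw s => mkL z0 z1 z2 Cw nc fun l _ =>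
      toB 0 l fun l0 => toB 1 l fun l1 => toB 2 l fun l2 =>
        mkS z0 z1 z2 Rw l0 l1 l2 nr fun rows =>
          run n 2000 s rows [] (Nat.sub (Nat.shiftLeft 1 nc) 1) need

/-- The bit of the box on top of the column with index `i`. -/
def tp (S H i : Nat) : Nat :=
  Nat.add (Q.Bd.code (Nat.div i S) (Nat.mod i S) (lane 12 H i)) 1201

/-- The check of one flag. -/
def l3 (S N n H z Rm i0 i1 c s : Nat) : Bool :=
  frc z fun z1 => frc (Nat.lor z1 (Nat.shiftLeft 1 (tp S H i0))) fun z0 =>
    frc (Nat.xor z1 (Nat.shiftLeft 1 (Nat.sub (tp S H i1) 1))) fun z2 =>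
      rd 7 s fun m s => rd (Nat.add (Nat.mul 48 m) 24) s fun E s =>
        band (eras S N H Rm i0 i1 z0 z1 z2 E m)
          (frc (Nat.sub (Nat.add c 2) (Nat.add (Nat.mul 3 n) m)) fun need =>
            fin3 z0 z1 z2 n need s)

end

end Pool.Agent.Lib.MP_ed43e6_ag.T
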