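import Pool.Agent.Lib.MP_ed43e6_ag.T.Era
import Pool.Agent.Lib.MP_ed43e6_ag.T.Fin3
import Pool.Agent.Lib.MP_ed43e6_ag.Q.OkS

/-! Soundness of the third layer. -/

namespace Pool.Agent.Lib.MP_ed43e6_ag.T

open N Q

universe u

/-- Generators are saved by leading terms or by a bound for the solutions of the quadrics. -/
def PT : GP := fun g D k => Gain g D k ∨ TGain.{u} g D k

theorem hPT (g : Fin 3 → ℕ → ℕ → ℕ) (D k : ℕ) (h : Gain g D k) : PT.{u} g D k := Or.inl h

theorem secondP_PT : SecondP.{u} PT.{u} := SecondP.or (secondP_gain.2 secondStmt) secondP_tgain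

theorem l3_sound : Bd.L3Sound PT.{u} l3 := l3_of fun _ _ _ _ _ _ _ L e => Or.inr (fin3_sound L e)

/-- The three layers give the finite verification. -/
theorem checkP_PT {M : ℕ} {fl t : KT} (hM : M ≤ 57) (h3 : Ok (jc l3) fl) (h : Ok (jb M fl) t)
    (e : Fo.walk M t = true) : CheckP PT.{u} M :=
  checkP_of_ok hM hPT (l3k_sound l3_sound h3) h e

end Pool.Agent.Lib.MP_ed43e6_ag.T
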