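import Pool.Agent.Lib.MP_ed43e6_ag.T.Ker
import Pool.Agent.Lib.MP_ed43e6_ag.Q.Cl

/-! The meaning of the tree shaped certificates. -/

namespace Pool.Agent.Lib.MP_ed43e6_ag.T

open N Q

universe u

noncomputable section

/-- The value of a quadric. -/
def ev {F : Type u} [Field F] (y : ℕ → F) (r : Row) : F :=
  (r.map fun t => (t.c : F) * (y t.a * y t.b)).sum

/-- The value of a linear form. -/
def evl {F : Type u} [Field F] (y : ℕ → F) (l : List (ℤ × ℕ)) : F :=
  (l.map fun p => (p.1 : F) * y p.2).sum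

/-- Solutions supported on `W` and nonzero on `U` are algebraic over `W.card - need` elements. -/
def Bnd (K : Type u) [Field K] (rows : List Row) (U : List ℕ) (W : Finset ℕ) (need : ℕ) : Prop :=
  ∀ (F : Type u) [Field F] [Algebra K F] (y : ℕ → F), (∀ i ∉ W, y i = 0) →
    (∀ r ∈ rows, ev y r = 0) → (∀ i ∈ U, y i ≠ 0) →
    ∃ S : Finset F, S.card + need ≤ W.card ∧ ∀ i, y i ∈ cl K (S : Set F)

/-- Soundness of the interpreter. -/
def RunStmt : Prop :=
  ∀ (K : Type u) [Field K] (D : ℕ), (∀ i : ℕ, 0 < i → i ≤ D → (i : K) ≠ 0) →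
    ∀ (fuel s : ℕ) (rows : List Row) (U : List ℕ) (V need : ℕ) (W : Finset ℕ),
      (∀ i, i ∈ W ↔ bit V i = true) → run D fuel s rows U V need = true → Bnd K rows U W need

end

end Pool.Agent.Lib.MP_ed43e6_ag.T
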